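import Pool.Agent.Lib.MP_c3d375_an.Neg.H85.InvCore

/-! 4.1 (INV) and 4.2 (KK) of Neg/Paper.md along a family of Hilbert spaces (helper85). -/

set_option autoImplicit false

namespace Pool.Agent.MP_c3d375_an.Neg

open Filter Topology


variable {ι : Type*} {l : Filter ι} {H : ι → Type*} [∀ i, NormedAddCommGroup (H i)]
  [∀ i, InnerProductSpace ℂ (H i)] [∀ i, CompleteSpace (H i)]

/-- A family of approximate contact states (section 4 of the paper). -/
structure Zone (l : Filter ι) (q K J j D : ∀ i, H i →L[ℂ] H i) (v : ∀ i, H i) : Prop where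
  alg : ∀ i, Alg (q i) (K i) (J i) (j i) (D i)
  bd : ∃ C : ℝ, 0 ≤ C ∧ ∀ i, ‖K i‖ ≤ C ∧ ‖J i‖ ≤ C ∧ ‖j i‖ ≤ C ∧ ‖D i‖ ≤ C ∧ ‖v i‖ ≤ C ∧
    ‖q i (v i)‖ ≤ C ∧ ‖ContinuousLinearMap.adjoint (q i) (v i)‖ ≤ C
  D0 : Tendsto (fun i => ‖D i‖) l (𝓝 0)
  pos : ∃ m : ι → ℝ, (∀ i, 0 ≤ m i) ∧ Tendsto m l (𝓝 0) ∧ ∀ i x,
    -(m i * ‖x‖ ^ 2) ≤ (inner ℂ x (J i x)).re ∧ -(m i * ‖x‖ ^ 2) ≤ (inner ℂ x (j i x)).re
  v0 : Tendsto (fun i => MM (q i) (D i) (v i)) l (𝓝 0)
  uy : Tendsto (fun i => ‖q i (v i) + ContinuousLinearMap.adjoint (q i) (v i)‖) l (𝓝 0)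
  k1 : Tendsto (fun i => (inner ℂ (v i) (J i (v i))).re) l (𝓝 0)
  k2 : Tendsto (fun i => (inner ℂ (q i (v i)) (j i (q i (v i)))).re) l (𝓝 0)

/-- contact lemma along a family -/
theorem contact_tendsto (T : ∀ i, H i →L[ℂ] H i) (x : ∀ i, H i) (m : ι → ℝ) (C B : ℝ) (hC : 0 ≤ C)
    (_hB : 0 ≤ B)
    (hm0 : ∀ i, 0 ≤ m i) (hm : Tendsto m l (𝓝 0)) (hT : ∀ i, ‖T i‖ ≤ C) (hx : ∀ i, ‖x i‖ ≤ B)
    (hpos : ∀ i z, -(m i * ‖z‖ ^ 2) ≤ (inner ℂ z (T i z)).re)
    (h : Tendsto (fun i => (inner ℂ (x i) (T i (x i))).re) l (𝓝 0)) :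
    Tendsto (fun i => ‖T i (x i) + ContinuousLinearMap.adjoint (T i) (x i)‖) l (𝓝 0) := by
  have hb : ∀ i, ‖T i (x i) + ContinuousLinearMap.adjoint (T i) (x i)‖ ≤ 2 * m i * B
      + 2 * Real.sqrt (C + m i) * Real.sqrt ((inner ℂ (x i) (T i (x i))).re + m i * B ^ 2) := by
    intro i
    refine (contact_bound (T i) (m i) C (hm0 i) hC (hpos i) (hT i) (x i)).trans ?_
    have := hm0 i
    gcongr
    · exact hx i
    · exact hx i
  have hlim : Tendsto (fun i => 2 * m i * B
      + 2 * Real.sqrt (C + m i) * Real.sqrt ((inner ℂ (x i) (T i (x i))).re + m i * B ^ 2)) l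
      (𝓝 (2 * 0 * B + 2 * Real.sqrt (C + 0) * Real.sqrt (0 + 0 * B ^ 2))) := by
    refine ((hm.const_mul 2).mul_const B).add (((hm.const_add C).sqrt.const_mul 2).mul ?_)
    exact (h.add (hm.mul_const (B ^ 2))).sqrt
  have e0 : (2 * 0 * B + 2 * Real.sqrt (C + 0) * Real.sqrt (0 + 0 * B ^ 2)) = 0 := by simp
  rw [e0] at hlim
  exact squeeze_zero (fun i => norm_nonneg _) hb hlim

theorem norm_adj_apply_le {E : Type*} [NormedAddCommGroup E] [InnerProductSpace ℂ E] [CompleteSpace E]
    (T : E →L[ℂ] E) (x : E) : ‖ContinuousLinearMap.adjoint T x‖ ≤ ‖T‖ * ‖x‖ := by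
  have := (ContinuousLinearMap.adjoint T).le_opNorm x
  rwa [LinearIsometryEquiv.norm_map] at this

theorem pow_adj_norm_le {E : Type*} [NormedAddCommGroup E] [InnerProductSpace ℂ E] [CompleteSpace E]
    (T : E →L[ℂ] E) {C B : ℝ} (hC : ‖T‖ ≤ C) (x : E) (hx : ‖x‖ ≤ B) (n : ℕ) :
    ‖((ContinuousLinearMap.adjoint T) ^ n) x‖ ≤ C ^ n * B := by
  have hC0 : 0 ≤ C := (norm_nonneg _).trans hC
  induction n with
  | zero => simpa using hx
  | succ n ih =>
    rw [pow_succ', mul_apply_eq_comp]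
    refine (norm_adj_apply_le T _).trans ?_
    calc ‖T‖ * ‖((ContinuousLinearMap.adjoint T) ^ n) x‖ ≤ C * (C ^ n * B) := by gcongr
      _ = _ := by ring

theorem pow_norm_le {E : Type*} [NormedAddCommGroup E] [InnerProductSpace ℂ E]
    (T : E →L[ℂ] E) {C B : ℝ} (hC : ‖T‖ ≤ C) (x : E) (hx : ‖x‖ ≤ B) (n : ℕ) :
    ‖(T ^ n) x‖ ≤ C ^ n * B := by
  have hC0 : 0 ≤ C := (norm_nonneg _).trans hC
  induction n with
  | zero => simpa using hx
  | succ n ih =>
    rw [pow_succ', mul_apply_eq_comp]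
    refine (T.le_opNorm _).trans ?_
    calc ‖T‖ * ‖(T ^ n) x‖ ≤ C * (C ^ n * B) := by gcongr
      _ = _ := by ring

namespace Alg
variable {E : Type*} [NormedAddCommGroup E] [InnerProductSpace ℂ E] [CompleteSpace E]
  {q K J j D : E →L[ℂ] E} (h : Alg q K J j D)
include h

theorem KJ (x : E) : K (J x) = J (K x) := by rw [← h.qK x, h.Kq]
theorem Kj (x : E) : K (j x) = j (K x) := by
  have h1 := h.jJ x
  have h2 := h.jJ (K x)
  have h3 : K (j x) + K (J x) = K x := by rw [← map_add, h1]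
  rw [h.KJ] at h3
  exact add_right_cancel (h3.trans h2.symm)

theorem adjK_adjq_pow (v : E) (n : ℕ) : ContinuousLinearMap.adjoint q (((ContinuousLinearMap.adjoint K) ^ n) v) = ((ContinuousLinearMap.adjoint K) ^ n) (ContinuousLinearMap.adjoint q v) := by
  induction n with
  | zero => simp
  | succ n ih =>
    rw [pow_succ', mul_apply_eq_comp, mul_apply_eq_comp, ← ih, h.adj_Kq, h.adj_qK]

theorem adj_KJ (x : E) : ContinuousLinearMap.adjoint K (ContinuousLinearMap.adjoint J x) = ContinuousLinearMap.adjoint J (ContinuousLinearMap.adjoint K x) := by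
  refine ext_inner_left ℂ (fun y => ?_)
  simp only [ContinuousLinearMap.adjoint_inner_right]
  rw [h.KJ]

theorem adj_Kj (x : E) : ContinuousLinearMap.adjoint K (ContinuousLinearMap.adjoint j x) = ContinuousLinearMap.adjoint j (ContinuousLinearMap.adjoint K x) := by
  refine ext_inner_left ℂ (fun y => ?_)
  simp only [ContinuousLinearMap.adjoint_inner_right]
  rw [h.Kj]

/-- `J K^n v = K^(n+1) q v` -/
theorem J_pow (v : E) (n : ℕ) : J ((K ^ n) v) = (K ^ (n + 1)) (q v) := by
  induction n with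
  | zero => simp [h.Kq]
  | succ n ih =>
    rw [pow_succ', mul_apply_eq_comp, ← h.KJ, ih, ← mul_apply_eq_comp, ← pow_succ']

theorem j_pow (v : E) (n : ℕ) : j ((K ^ n) (q v)) = (K ^ (n + 1)) v := by
  induction n with
  | zero => simp [h.jq]
  | succ n ih =>
    rw [pow_succ', mul_apply_eq_comp, ← h.Kj, ih, ← mul_apply_eq_comp, ← pow_succ']

theorem adjJ_pow (v : E) (n : ℕ) : ContinuousLinearMap.adjoint J (((ContinuousLinearMap.adjoint K) ^ n) v) = ((ContinuousLinearMap.adjoint K) ^ (n + 1)) (ContinuousLinearMap.adjoint q v) := by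
  induction n with
  | zero => simp [h.adj_qK]
  | succ n ih =>
    rw [pow_succ', mul_apply_eq_comp, ← h.adj_KJ, ih, ← mul_apply_eq_comp, ← pow_succ']

theorem adjj_pow (v : E) (n : ℕ) : ContinuousLinearMap.adjoint j (((ContinuousLinearMap.adjoint K) ^ n) (ContinuousLinearMap.adjoint q v)) = ((ContinuousLinearMap.adjoint K) ^ (n + 1)) v := by
  induction n with
  | zero => simp [h.adj_qj]
  | succ n ih =>
    rw [pow_succ', mul_apply_eq_comp, ← h.adj_Kj, ih, ← mul_apply_eq_comp, ← pow_succ']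

end Alg

namespace Zone
variable {q K J j D : ∀ i, H i →L[ℂ] H i} {v : ∀ i, H i} (h : Zone l q K J j D v)
include h

/-- (INV) -/
theorem inv (n : ℕ) :
    Tendsto (fun i => MM (q i) (D i) (((ContinuousLinearMap.adjoint (K i)) ^ n) (v i))) l (𝓝 0) ∧
    Tendsto (fun i => ‖J i (((ContinuousLinearMap.adjoint (K i)) ^ n) (v i)) + ContinuousLinearMap.adjoint (J i) (((ContinuousLinearMap.adjoint (K i)) ^ n) (v i))‖) l (𝓝 0) ∧
    Tendsto (fun i => ‖j i (((ContinuousLinearMap.adjoint (K i)) ^ n) (ContinuousLinearMap.adjoint (q i) (v i)))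
      + ContinuousLinearMap.adjoint (j i) (((ContinuousLinearMap.adjoint (K i)) ^ n) (ContinuousLinearMap.adjoint (q i) (v i)))‖) l (𝓝 0) := by
  obtain ⟨C, hC, hb⟩ := h.bd
  obtain ⟨m, hm0, hm, hpos⟩ := h.pos
  -- bounds
  have bz : ∀ n i, ‖((ContinuousLinearMap.adjoint (K i)) ^ n) (v i)‖ ≤ C ^ n * C := fun n i =>
    pow_adj_norm_le (K i) (hb i).1 _ (hb i).2.2.2.2.1 n
  have by' : ∀ n i, ‖((ContinuousLinearMap.adjoint (K i)) ^ n) (ContinuousLinearMap.adjoint (q i) (v i))‖ ≤ C ^ n * C := fun n i =>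
    pow_adj_norm_le (K i) (hb i).1 _ (hb i).2.2.2.2.2.2 n
  induction n with
  | zero =>
    simp only [pow_zero, one_apply_eq_self]
    refine ⟨h.v0, ?_, ?_⟩
    · exact contact_tendsto J v m C C hC hC hm0 hm (fun i => (hb i).2.1) (fun i => (hb i).2.2.2.2.1)
        (fun i z => (hpos i z).1) h.k1
    · have h1 := contact_tendsto j (fun i => q i (v i)) m C C hC hC hm0 hm (fun i => (hb i).2.2.1)
        (fun i => (hb i).2.2.2.2.2.1) (fun i z => (hpos i z).2) h.k2
      have h2 : Tendsto (fun i => 2 * C * ‖q i (v i) + ContinuousLinearMap.adjoint (q i) (v i)‖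
          + ‖j i (q i (v i)) + ContinuousLinearMap.adjoint (j i) (q i (v i))‖) l (𝓝 0) := by
        simpa using (h.uy.const_mul (2 * C)).add h1
      refine squeeze_zero (fun i => norm_nonneg _) (fun i => ?_) h2
      set u := q i (v i)
      set y := ContinuousLinearMap.adjoint (q i) (v i)
      have e : j i y + ContinuousLinearMap.adjoint (j i) y = (j i (u + y) + ContinuousLinearMap.adjoint (j i) (u + y)) - (j i u + ContinuousLinearMap.adjoint (j i) u) := by
        simp only [map_add]; abel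
      rw [e]
      refine (norm_sub_le _ _).trans (add_le_add ?_ le_rfl)
      refine (norm_add_le _ _).trans ?_
      have b1 : ‖j i (u + y)‖ ≤ C * ‖u + y‖ := (j i).le_of_opNorm_le (hb i).2.2.1 _
      have b2 : ‖ContinuousLinearMap.adjoint (j i) (u + y)‖ ≤ C * ‖u + y‖ := (norm_adj_apply_le (j i) _).trans
        (by gcongr; exact (hb i).2.2.1)
      linarith
  | succ n ih =>
    obtain ⟨i1, i2, i3⟩ := ih
    have hD := h.D0
    set B : ℝ := (C ^ n * C) + (C ^ (n + 1) * C) + (C ^ (n + 2) * C) + (C ^ (n + 3) * C) with hBdef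
    have hB : 0 ≤ B := by positivity
    have hBle : ∀ k, k ≤ 3 → C ^ (n + k) * C ≤ B := by
      intro k hk
      have t0 : 0 ≤ C ^ n * C := by positivity
      have t1 : 0 ≤ C ^ (n + 1) * C := by positivity
      have t2 : 0 ≤ C ^ (n + 2) * C := by positivity
      have t3 : 0 ≤ C ^ (n + 3) * C := by positivity
      interval_cases k <;> (try simp only [add_zero]) <;> linarith
    set B' : ℝ := C * (1 + C) * C * B ^ 2 with hB'
    have zz : ∀ k i, ((ContinuousLinearMap.adjoint (K i)) ^ (k + 1)) (v i) = ContinuousLinearMap.adjoint (K i) (((ContinuousLinearMap.adjoint (K i)) ^ k) (v i)) := fun k i => by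
      rw [pow_succ', mul_apply_eq_comp]
    have bqz : ∀ k, k ≤ 3 → ∀ i, ‖ContinuousLinearMap.adjoint (q i) (((ContinuousLinearMap.adjoint (K i)) ^ (n + k)) (v i))‖ ≤ B := fun k hk i => by
      rw [(h.alg i).adjK_adjq_pow]; exact (by' (n + k) i).trans (hBle k hk)
    have bzz : ∀ k, k ≤ 3 → ∀ i, ‖((ContinuousLinearMap.adjoint (K i)) ^ (n + k)) (v i)‖ ≤ B := fun k hk i =>
      (bz (n + k) i).trans (hBle k hk)
    have bM : ∀ k, k ≤ 2 → ∀ i, MM (q i) (D i) (((ContinuousLinearMap.adjoint (K i)) ^ (n + k + 1)) (v i)) ≤ B' := by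
      intro k hk i
      rw [zz]
      refine ((h.alg i).MM_adjK_le _).trans ?_
      rw [hB']
      have a1 := (hb i).2.1
      have a2 := (hb i).2.2.2.1
      have a3 := (hb i).1
      have a4 := bzz k (by omega) i
      gcongr
    -- first limit
    have s1 : Tendsto (fun i => MM (q i) (D i) (((ContinuousLinearMap.adjoint (K i)) ^ (n + 1)) (v i))) l (𝓝 0) := by
      have lim : Tendsto (fun i => ‖D i‖ * (B * B)
          + ‖J i (((ContinuousLinearMap.adjoint (K i)) ^ n) (v i)) + ContinuousLinearMap.adjoint (J i) (((ContinuousLinearMap.adjoint (K i)) ^ n) (v i))‖ * B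
          + ‖j i (((ContinuousLinearMap.adjoint (K i)) ^ n) (ContinuousLinearMap.adjoint (q i) (v i)))
            + ContinuousLinearMap.adjoint (j i) (((ContinuousLinearMap.adjoint (K i)) ^ n) (ContinuousLinearMap.adjoint (q i) (v i)))‖ * B
          + (2 * (Real.sqrt B' * Real.sqrt (MM (q i) (D i) (((ContinuousLinearMap.adjoint (K i)) ^ n) (v i))))
            + ‖D i‖ * (B * B + B * B))) l (𝓝 (0 * (B * B) + 0 * B + 0 * B
              + (2 * (Real.sqrt B' * Real.sqrt 0) + 0 * (B * B + B * B)))) :=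
        (((hD.mul_const _).add (i2.mul_const _)).add (i3.mul_const _)).add
          (((i1.sqrt.const_mul _).const_mul 2).add (hD.mul_const _))
      have e0 : (0 * (B * B) + 0 * B + 0 * B
              + (2 * (Real.sqrt B' * Real.sqrt 0) + 0 * (B * B + B * B))) = 0 := by simp
      rw [e0] at lim
      refine squeeze_zero (fun i => (h.alg i).N0 _) (fun i => ?_) lim
      rw [zz]
      refine ((h.alg i).step1 _).trans ?_
      rw [(h.alg i).adjK_adjq_pow, ← zz, ← zz]
      have c0 := norm_nonneg (D i)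
      have c1 := bqz 1 (by omega) i
      have c2 := bzz 1 (by omega) i
      have c3 := bqz 2 (by omega) i
      have c4 := bzz 2 (by omega) i
      have c5 := bqz 0 (by omega) i
      have c6 := bzz 0 (by omega) i
      have c7 := bM 1 (by omega) i
      simp only [add_zero] at c5 c6
      rw [(h.alg i).adjK_adjq_pow] at c5
      gcongr
      all_goals first | exact c1 | exact c2 | exact c3 | exact c4 | exact c5 | exact c6 | exact c7
    have s2 : Tendsto (fun i => (2 * (Real.sqrt B' * Real.sqrt (MM (q i) (D i) (((ContinuousLinearMap.adjoint (K i)) ^ (n + 1)) (v i))))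
          + ‖D i‖ * (B * B + B * B))) l (𝓝 0) := by
      have := (((s1.sqrt.const_mul (Real.sqrt B')).const_mul 2).add (hD.mul_const (B * B + B * B)))
      simpa using this
    have s3 : ∀ i, (inner ℂ (((ContinuousLinearMap.adjoint (K i)) ^ (n + 1)) (v i)) (J i (((ContinuousLinearMap.adjoint (K i)) ^ (n + 1)) (v i)))).re
        + (inner ℂ (((ContinuousLinearMap.adjoint (K i)) ^ (n + 1)) (ContinuousLinearMap.adjoint (q i) (v i))) (j i (((ContinuousLinearMap.adjoint (K i)) ^ (n + 1)) (ContinuousLinearMap.adjoint (q i) (v i))))).re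
        ≤ 2 * (Real.sqrt B' * Real.sqrt (MM (q i) (D i) (((ContinuousLinearMap.adjoint (K i)) ^ (n + 1)) (v i))))
          + ‖D i‖ * (B * B + B * B) := by
      intro i
      have := (h.alg i).step2 (((ContinuousLinearMap.adjoint (K i)) ^ (n + 1)) (v i))
      rw [(h.alg i).adjK_adjq_pow, ← zz] at this
      refine this.trans ?_
      have c0 := norm_nonneg (D i)
      have c1 := bqz 1 (by omega) i
      have c2 := bzz 1 (by omega) i
      have c3 := bqz 2 (by omega) i
      have c4 := bzz 2 (by omega) i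
      have c7 := bM 1 (by omega) i
      rw [(h.alg i).adjK_adjq_pow] at c1
      gcongr
      all_goals first | exact c1 | exact c2 | exact c3 | exact c4 | exact c7
    have hmB : Tendsto (fun i => m i * B ^ 2) l (𝓝 0) := by simpa using hm.mul_const (B ^ 2)
    have lJ : ∀ i, -(m i * B ^ 2) ≤ (inner ℂ (((ContinuousLinearMap.adjoint (K i)) ^ (n + 1)) (v i)) (J i (((ContinuousLinearMap.adjoint (K i)) ^ (n + 1)) (v i)))).re := by
      intro i
      refine le_trans ?_ (hpos i _).1
      have := hm0 i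
      have c2 := bzz 1 (by omega) i
      have : m i * ‖((ContinuousLinearMap.adjoint (K i)) ^ (n + 1)) (v i)‖ ^ 2 ≤ m i * B ^ 2 := by gcongr
      linarith
    have lj : ∀ i, -(m i * B ^ 2) ≤ (inner ℂ (((ContinuousLinearMap.adjoint (K i)) ^ (n + 1)) (ContinuousLinearMap.adjoint (q i) (v i))) (j i (((ContinuousLinearMap.adjoint (K i)) ^ (n + 1)) (ContinuousLinearMap.adjoint (q i) (v i))))).re := by
      intro i
      refine le_trans ?_ (hpos i _).2
      have := hm0 i
      have c2 := bqz 1 (by omega) i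
      rw [(h.alg i).adjK_adjq_pow] at c2
      have : m i * ‖((ContinuousLinearMap.adjoint (K i)) ^ (n + 1)) (ContinuousLinearMap.adjoint (q i) (v i))‖ ^ 2 ≤ m i * B ^ 2 := by gcongr
      linarith
    have tJ : Tendsto (fun i => (inner ℂ (((ContinuousLinearMap.adjoint (K i)) ^ (n + 1)) (v i)) (J i (((ContinuousLinearMap.adjoint (K i)) ^ (n + 1)) (v i)))).re) l (𝓝 0) := by
      refine tendsto_of_tendsto_of_tendsto_of_le_of_le (g := fun i => -(m i * B ^ 2))
        (h := fun i => (2 * (Real.sqrt B' * Real.sqrt (MM (q i) (D i) (((ContinuousLinearMap.adjoint (K i)) ^ (n + 1)) (v i))))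
          + ‖D i‖ * (B * B + B * B)) + m i * B ^ 2) (by simpa using hmB.neg) (by simpa using s2.add hmB) lJ (fun i => ?_)
      have := s3 i
      have := lj i
      simp only
      linarith
    have tj : Tendsto (fun i => (inner ℂ (((ContinuousLinearMap.adjoint (K i)) ^ (n + 1)) (ContinuousLinearMap.adjoint (q i) (v i))) (j i (((ContinuousLinearMap.adjoint (K i)) ^ (n + 1)) (ContinuousLinearMap.adjoint (q i) (v i))))).re) l (𝓝 0) := by
      refine tendsto_of_tendsto_of_tendsto_of_le_of_le (g := fun i => -(m i * B ^ 2))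
        (h := fun i => (2 * (Real.sqrt B' * Real.sqrt (MM (q i) (D i) (((ContinuousLinearMap.adjoint (K i)) ^ (n + 1)) (v i))))
          + ‖D i‖ * (B * B + B * B)) + m i * B ^ 2) (by simpa using hmB.neg) (by simpa using s2.add hmB) lj (fun i => ?_)
      have := s3 i
      have := lJ i
      simp only
      linarith
    refine ⟨s1, ?_, ?_⟩
    · exact contact_tendsto J _ m C B hC hB hm0 hm (fun i => (hb i).2.1) (fun i => bzz 1 (by omega) i)
        (fun i z => (hpos i z).1) tJ
    · refine contact_tendsto j _ m C B hC hB hm0 hm (fun i => (hb i).2.2.1) (fun i => ?_)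
        (fun i z => (hpos i z).2) tj
      have c2 := bqz 1 (by omega) i
      rwa [(h.alg i).adjK_adjq_pow] at c2

/-- (KK) -/
theorem kk (n : ℕ) :
    Tendsto (fun i => ‖((K i) ^ n) (v i) - ((ContinuousLinearMap.adjoint (K i)) ^ n) (v i)‖) l (𝓝 0) ∧
    Tendsto (fun i => ‖((K i) ^ n) (q i (v i)) - ((ContinuousLinearMap.adjoint (K i)) ^ n) (q i (v i))‖) l (𝓝 0) := by
  obtain ⟨C, hC, hb⟩ := h.bd
  induction n with
  | zero => simp [tendsto_const_nhds]
  | succ n ih =>
    obtain ⟨i1, i2⟩ := ih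
    obtain ⟨-, c2, c3⟩ := h.inv n
    constructor
    · -- K^{n+1} v = j K^n u
      have lim : Tendsto (fun i => C * ‖((K i) ^ n) (q i (v i)) - ((ContinuousLinearMap.adjoint (K i)) ^ n) (q i (v i))‖
          + C * (C ^ n * ‖q i (v i) + ContinuousLinearMap.adjoint (q i) (v i)‖)
          + ‖j i (((ContinuousLinearMap.adjoint (K i)) ^ n) (ContinuousLinearMap.adjoint (q i) (v i))) + ContinuousLinearMap.adjoint (j i) (((ContinuousLinearMap.adjoint (K i)) ^ n) (ContinuousLinearMap.adjoint (q i) (v i)))‖) l (𝓝 0) := by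
        have := ((i2.const_mul C).add ((h.uy.const_mul (C ^ n)).const_mul C)).add c3
        simpa using this
      refine squeeze_zero (fun i => norm_nonneg _) (fun i => ?_) lim
      have e : ((K i) ^ (n + 1)) (v i) - ((ContinuousLinearMap.adjoint (K i)) ^ (n + 1)) (v i)
          = j i (((K i) ^ n) (q i (v i)) - ((ContinuousLinearMap.adjoint (K i)) ^ n) (q i (v i)))
            + j i (((ContinuousLinearMap.adjoint (K i)) ^ n) (q i (v i) + ContinuousLinearMap.adjoint (q i) (v i)))
            - (j i (((ContinuousLinearMap.adjoint (K i)) ^ n) (ContinuousLinearMap.adjoint (q i) (v i))) + ContinuousLinearMap.adjoint (j i) (((ContinuousLinearMap.adjoint (K i)) ^ n) (ContinuousLinearMap.adjoint (q i) (v i)))) := by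
        rw [(h.alg i).adjj_pow, ← (h.alg i).j_pow]
        simp only [map_add, map_sub]
        abel
      rw [e]
      refine (norm_sub_le _ _).trans (add_le_add ((norm_add_le _ _).trans (add_le_add ?_ ?_)) le_rfl)
      · exact (j i).le_of_opNorm_le (hb i).2.2.1 _
      · refine ((j i).le_of_opNorm_le (hb i).2.2.1 _).trans ?_
        gcongr
        exact pow_adj_norm_le (K i) (hb i).1 _ le_rfl n
    · have lim : Tendsto (fun i => C * ‖((K i) ^ n) (v i) - ((ContinuousLinearMap.adjoint (K i)) ^ n) (v i)‖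
          + ‖J i (((ContinuousLinearMap.adjoint (K i)) ^ n) (v i)) + ContinuousLinearMap.adjoint (J i) (((ContinuousLinearMap.adjoint (K i)) ^ n) (v i))‖
          + C ^ (n + 1) * ‖q i (v i) + ContinuousLinearMap.adjoint (q i) (v i)‖) l (𝓝 0) := by
        have := ((i1.const_mul C).add c2).add (h.uy.const_mul (C ^ (n + 1)))
        simpa using this
      refine squeeze_zero (fun i => norm_nonneg _) (fun i => ?_) lim
      have e : ((K i) ^ (n + 1)) (q i (v i)) - ((ContinuousLinearMap.adjoint (K i)) ^ (n + 1)) (q i (v i))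
          = J i (((K i) ^ n) (v i) - ((ContinuousLinearMap.adjoint (K i)) ^ n) (v i))
            + (J i (((ContinuousLinearMap.adjoint (K i)) ^ n) (v i)) + ContinuousLinearMap.adjoint (J i) (((ContinuousLinearMap.adjoint (K i)) ^ n) (v i)))
            - ((ContinuousLinearMap.adjoint (K i)) ^ (n + 1)) (q i (v i) + ContinuousLinearMap.adjoint (q i) (v i)) := by
        rw [(h.alg i).adjJ_pow, ← (h.alg i).J_pow]
        simp only [map_add, map_sub]
        abel
      rw [e]
      refine (norm_sub_le _ _).trans (add_le_add ((norm_add_le _ _).trans (add_le_add ?_ le_rfl)) ?_)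
      · exact (J i).le_of_opNorm_le (hb i).2.1 _
      · exact pow_adj_norm_le (K i) (hb i).1 _ le_rfl (n + 1)

end Zone

end Pool.Agent.MP_c3d375_an.Neg
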