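import Pool.Agent.Lib.MP_c3d375_an.Neg.Iface
import Pool.Agent.Lib.MP_c3d375_an.Neg.H85.Zone

/-! Row INV of c3_modules (helper85). -/

set_option autoImplicit false

open Filter Topology Pool.Agent.MP_c3d375_an.Neg

namespace C3N.H85


theorem alg_of_near {H : Type} [NormedAddCommGroup H] [InnerProductSpace ℂ H] [CompleteSpace H]
    {𝓐 : Type} [CommRing 𝓐] [Algebra ℂ 𝓐] {Φ : 𝓐 →ₐ[ℂ] (H →L[ℂ] H)} {q j Δ : 𝓐} {M δ : ℝ} {v : H}
    (h : Near Φ q j Δ M δ v) : Alg (Φ q) (Φ (q * j)) (Φ (q ^ 2 * j)) (Φ j) (Φ Δ) where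
  Kq x := by
    rw [← mul_apply_eq_comp, ← map_mul]; congr 2; ring
  qK x := by
    rw [← mul_apply_eq_comp, ← map_mul]; congr 2; ring
  jq x := by
    rw [← mul_apply_eq_comp, ← map_mul]; congr 2; ring
  qj x := by
    rw [← mul_apply_eq_comp, ← map_mul]
  jJ x := by
    rw [← add_apply, ← map_add]
    have : j + q ^ 2 * j = 1 := by rw [← h.hj]; ring
    rw [this, map_one, one_apply_eq_self]
  N0 z := by
    have := h.acc z
    rw [MM]
    have e : Φ q (z + Φ Δ z) = Φ (q * (1 + Δ)) z := by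
      rw [map_mul, mul_apply_eq_comp, map_add Φ, map_one, add_apply, one_apply_eq_self]
    rw [e]; exact this

theorem zone_of_near {H : ℕ → Type} [∀ k, NormedAddCommGroup (H k)] [∀ k, InnerProductSpace ℂ (H k)]
    [∀ k, CompleteSpace (H k)] {𝓐 : ℕ → Type} [∀ k, CommRing (𝓐 k)] [∀ k, Algebra ℂ (𝓐 k)]
    (Φ : ∀ k, 𝓐 k →ₐ[ℂ] (H k →L[ℂ] H k)) (q j Δ : ∀ k, 𝓐 k) (v : ∀ k, H k) (M : ℝ) (hM : 0 < M)
    (δ : ℕ → ℝ) (hδ0 : ∀ k, 0 ≤ δ k) (hδ1 : ∀ k, δ k ≤ 1) (hδ : Tendsto δ atTop (𝓝 0))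
    (h : ∀ k, Near (Φ k) (q k) (j k) (Δ k) M (δ k) (v k)) :
    Zone atTop (fun k => Φ k (q k)) (fun k => Φ k (q k * j k)) (fun k => Φ k (q k ^ 2 * j k))
      (fun k => Φ k (j k)) (fun k => Φ k (Δ k)) v where
  alg k := alg_of_near (h k)
  bd := ⟨M + 1, by positivity, fun k => ⟨(h k).nK.trans (by linarith), (h k).nJ.trans (by linarith),
    (h k).nj.trans (by linarith), (h k).nΔ.trans (by linarith [hδ1 k]), (h k).nv.trans (by linarith),
    (h k).nu.trans (by linarith), (h k).ny.trans (by linarith)⟩⟩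
  D0 := squeeze_zero (fun k => norm_nonneg _) (fun k => (h k).nΔ) hδ
  pos := by
    refine ⟨fun k => δ k * M ^ 2, fun k => mul_nonneg (hδ0 k) (by positivity), by simpa using hδ.mul_const (M ^ 2),
      fun k x => ⟨?_, ?_⟩⟩
    · refine le_trans ?_ ((h k).pJ x)
      have h1 : ‖Φ k (q k ^ 2 * j k) x‖ ≤ M * ‖x‖ := (Φ k (q k ^ 2 * j k)).le_of_opNorm_le (h k).nJ x
      have h2 : ‖Φ k (q k ^ 2 * j k) x‖ ^ 2 ≤ (M * ‖x‖) ^ 2 := by gcongr
      have := mul_le_mul_of_nonneg_left h2 (hδ0 k)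
      nlinarith
    · refine le_trans ?_ ((h k).pj x)
      have h1 : ‖Φ k (j k) x‖ ≤ M * ‖x‖ := (Φ k (j k)).le_of_opNorm_le (h k).nj x
      have h2 : ‖Φ k (j k) x‖ ^ 2 ≤ (M * ‖x‖) ^ 2 := by gcongr
      have := mul_le_mul_of_nonneg_left h2 (hδ0 k)
      nlinarith
  v0 := by
    refine squeeze_zero (fun k => (alg_of_near (h k)).N0 _) (fun k => ?_) hδ
    have := (h k).form
    rw [MM]
    have e : Φ k (q k) (v k + Φ k (Δ k) (v k)) = Φ k (q k * (1 + Δ k)) (v k) := by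
      rw [map_mul, mul_apply_eq_comp, map_add (Φ k), map_one, add_apply, one_apply_eq_self]
    rw [e]; exact this
  uy := squeeze_zero (fun k => norm_nonneg _) (fun k => (h k).xi) hδ
  k1 := by
    refine squeeze_zero_norm (fun k => ?_) hδ
    rw [Real.norm_eq_abs]; exact (h k).k1
  k2 := by
    refine squeeze_zero_norm (fun k => ?_) hδ
    rw [Real.norm_eq_abs]; exact (h k).k2

/-- consequence of (INV) for the family -/
theorem inv_family {H : ℕ → Type} [∀ k, NormedAddCommGroup (H k)] [∀ k, InnerProductSpace ℂ (H k)]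
    [∀ k, CompleteSpace (H k)] {𝓐 : ℕ → Type} [∀ k, CommRing (𝓐 k)] [∀ k, Algebra ℂ (𝓐 k)]
    (Φ : ∀ k, 𝓐 k →ₐ[ℂ] (H k →L[ℂ] H k)) (q j Δ : ∀ k, 𝓐 k) (v : ∀ k, H k) (M : ℝ) (hM : 0 < M)
    (δ : ℕ → ℝ) (hδ0 : ∀ k, 0 ≤ δ k) (hδ1 : ∀ k, δ k ≤ 1) (hδ : Tendsto δ atTop (𝓝 0))
    (h : ∀ k, Near (Φ k) (q k) (j k) (Δ k) M (δ k) (v k)) (n : ℕ) :
    Tendsto (fun k => ‖(Φ k (q k ^ 2 * j k) + (Φ k (q k ^ 2 * j k)).adjoint)
      (((Φ k (q k * j k)).adjoint ^ n) (v k))‖) atTop (𝓝 0) ∧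
    Tendsto (fun k => ‖(Φ k (j k) + (Φ k (j k)).adjoint)
      (((Φ k (q k * j k)).adjoint ^ n) (Φ k (q k) (v k)))‖) atTop (𝓝 0) := by
  have Z := zone_of_near Φ q j Δ v M hM δ hδ0 hδ1 hδ h
  obtain ⟨-, h2, h3⟩ := Z.inv n
  refine ⟨by simpa only [add_apply] using h2, ?_⟩
  have lim : Tendsto (fun k => 2 * M * (M ^ n * ‖Φ k (q k) (v k) + ContinuousLinearMap.adjoint (Φ k (q k)) (v k)‖)
      + ‖Φ k (j k) (((ContinuousLinearMap.adjoint (Φ k (q k * j k))) ^ n) (ContinuousLinearMap.adjoint (Φ k (q k)) (v k)))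
        + ContinuousLinearMap.adjoint (Φ k (j k)) (((ContinuousLinearMap.adjoint (Φ k (q k * j k))) ^ n) (ContinuousLinearMap.adjoint (Φ k (q k)) (v k)))‖) atTop (𝓝 0) := by
    have := ((Z.uy.const_mul (M ^ n)).const_mul (2 * M)).add h3
    simpa using this
  refine squeeze_zero (fun k => norm_nonneg _) (fun k => ?_) lim
  set u := Φ k (q k) (v k)
  set y := ContinuousLinearMap.adjoint (Φ k (q k)) (v k)
  set P := (ContinuousLinearMap.adjoint (Φ k (q k * j k))) ^ n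
  have e : (Φ k (j k) + (Φ k (j k)).adjoint) (P u)
      = (Φ k (j k) (P (u + y)) + ContinuousLinearMap.adjoint (Φ k (j k)) (P (u + y))) - (Φ k (j k) (P y) + ContinuousLinearMap.adjoint (Φ k (j k)) (P y)) := by
    simp only [add_apply, map_add]; abel
  rw [e]
  refine (norm_sub_le _ _).trans (add_le_add ?_ le_rfl)
  refine (norm_add_le _ _).trans ?_
  have b0 : ‖P (u + y)‖ ≤ M ^ n * ‖u + y‖ := pow_adj_norm_le _ (h k).nK _ le_rfl n
  have b1 : ‖Φ k (j k) (P (u + y))‖ ≤ M * (M ^ n * ‖u + y‖) :=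
    ((Φ k (j k)).le_of_opNorm_le (h k).nj _).trans (by gcongr)
  have b2 : ‖ContinuousLinearMap.adjoint (Φ k (j k)) (P (u + y))‖ ≤ M * (M ^ n * ‖u + y‖) :=
    (norm_adj_apply_le (Φ k (j k)) _).trans (mul_le_mul (h k).nj b0 (norm_nonneg _) hM.le)
  linarith

/-- INV (Paper 4.1) -/
theorem inv_st : INVStatement := by
  intro M ε n hM hε
  by_contra hcon
  push Not at hcon
  have hpos : ∀ k : ℕ, (0 : ℝ) < 1 / ((k : ℝ) + 1) := fun k => by positivity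
  choose H i1 i2 i3 𝓐 i4 i5 Φ q j Δ v h1 h2 using fun k : ℕ => hcon (1 / ((k : ℝ) + 1)) (hpos k)
  have hlim := inv_family Φ q j Δ v M hM (fun k => 1 / ((k : ℝ) + 1)) (fun k => (hpos k).le)
    (fun k => by rw [div_le_one (by positivity)]; linarith [Nat.cast_nonneg (α := ℝ) k])
    tendsto_one_div_add_atTop_nhds_zero_nat h1 n
  have e1 := hlim.1.eventually (gt_mem_nhds hε)
  have e2 := hlim.2.eventually (gt_mem_nhds hε)
  obtain ⟨k, hk1, hk2⟩ := (e1.and e2).exists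
  exact absurd hk2 (not_lt.2 (h2 k hk1.le).le)

end C3N.H85
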