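import Pool.Agent.Lib.MP_c3d375_an.Neg.H85.Inv

/-! Row KK of c3_modules (helper85). -/

set_option autoImplicit false

open Filter Topology Pool.Agent.MP_c3d375_an.Neg

namespace C3N.H85

theorem kk_family {H : ℕ → Type} [∀ k, NormedAddCommGroup (H k)] [∀ k, InnerProductSpace ℂ (H k)]
    [∀ k, CompleteSpace (H k)] {𝓐 : ℕ → Type} [∀ k, CommRing (𝓐 k)] [∀ k, Algebra ℂ (𝓐 k)]
    (Φ : ∀ k, 𝓐 k →ₐ[ℂ] (H k →L[ℂ] H k)) (q j Δ : ∀ k, 𝓐 k) (v : ∀ k, H k) (M : ℝ) (hM : 0 < M)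
    (δ : ℕ → ℝ) (hδ0 : ∀ k, 0 ≤ δ k) (hδ1 : ∀ k, δ k ≤ 1) (hδ : Tendsto δ atTop (𝓝 0))
    (h : ∀ k, Near (Φ k) (q k) (j k) (Δ k) M (δ k) (v k)) (n : ℕ) :
    Tendsto (fun k => ‖Φ k ((q k * j k) ^ n) (v k) - ((Φ k (q k * j k)).adjoint ^ n) (v k)‖)
      atTop (𝓝 0) ∧
    Tendsto (fun k => ‖Φ k ((q k * j k) ^ n) (Φ k (q k) (v k))
      - ((Φ k (q k * j k)).adjoint ^ n) (Φ k (q k) (v k))‖) atTop (𝓝 0) := by
  have Z := (zone_of_near Φ q j Δ v M hM δ hδ0 hδ1 hδ h).kk n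
  simpa only [map_pow] using Z

/-- KK (Paper 4.2) -/
theorem kk_st (_h : INVStatement) : KKStatement := by
  intro M ε n hM hε
  by_contra hcon
  push Not at hcon
  have hpos : ∀ k : ℕ, (0 : ℝ) < 1 / ((k : ℝ) + 1) := fun k => by positivity
  choose H i1 i2 i3 𝓐 i4 i5 Φ q j Δ v h1 h2 using fun k : ℕ => hcon (1 / ((k : ℝ) + 1)) (hpos k)
  have hlim := kk_family Φ q j Δ v M hM (fun k => 1 / ((k : ℝ) + 1)) (fun k => (hpos k).le)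
    (fun k => by rw [div_le_one (by positivity)]; linarith [Nat.cast_nonneg (α := ℝ) k])
    tendsto_one_div_add_atTop_nhds_zero_nat h1 n
  have e1 := hlim.1.eventually (gt_mem_nhds hε)
  have e2 := hlim.2.eventually (gt_mem_nhds hε)
  obtain ⟨k, hk1, hk2⟩ := (e1.and e2).exists
  exact absurd hk2 (not_lt.2 (h2 k hk1.le).le)

end C3N.H85
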