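import Mathlib

/-! (P1) of Neg/Paper.md, abstract form (helper85). -/

set_option autoImplicit false

namespace Pool.Agent.MP_c3d375_an.Neg

open Filter Topology Metric

/-- `Re g ≥ 0` on the unit disc: `|g'(0)| ≤ 2 Re g(0)`. -/
theorem norm_deriv_le_of_re_nonneg {g : ℂ → ℂ} (hg : DifferentiableOn ℂ g (ball 0 1))
    (hre : ∀ z ∈ ball (0 : ℂ) 1, 0 ≤ (g z).re) : ‖deriv g 0‖ ≤ 2 * (g 0).re := by
  have h0 : (0 : ℂ) ∈ ball (0 : ℂ) 1 := by simp
  -- for every `ε > 0`
  have key : ∀ ε : ℝ, 0 < ε → ‖deriv g 0‖ ≤ 2 * ((g 0).re + ε) := by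
    intro ε hε
    set G : ℂ → ℂ := fun z => g z + ε with hG
    have hGd : DifferentiableOn ℂ G (ball 0 1) := hg.add (differentiableOn_const _)
    have hGre : ∀ z ∈ ball (0 : ℂ) 1, 0 < (G z).re := by
      intro z hz; simp only [hG, Complex.add_re, Complex.ofReal_re]; linarith [hre z hz]
    set w : ℂ := (starRingEnd ℂ) (G 0) with hw
    have hden : ∀ z ∈ ball (0 : ℂ) 1, G z + w ≠ 0 := by
      intro z hz h
      have := congrArg Complex.re h
      simp only [hw, Complex.add_re, Complex.conj_re, Complex.zero_re] at this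
      linarith [hGre z hz, hGre 0 h0]
    set φ : ℂ → ℂ := fun z => (G z - G 0) / (G z + w) with hφ
    have hφd : DifferentiableOn ℂ φ (ball 0 1) :=
      (hGd.sub (differentiableOn_const _)).div (hGd.add (differentiableOn_const _)) hden
    have hφ0 : φ 0 = 0 := by simp [hφ]
    have hmaps : Set.MapsTo φ (ball 0 1) (ball (φ 0) 1) := by
      intro z hz
      rw [hφ0, mem_ball_zero_iff]
      simp only [hφ]
      rw [norm_div, div_lt_one (norm_pos_iff.2 (hden z hz))]
      have h1 : ‖G z - G 0‖ ^ 2 < ‖G z + w‖ ^ 2 := by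
        rw [Complex.sq_norm, Complex.sq_norm, Complex.normSq_apply, Complex.normSq_apply]
        simp only [hw, Complex.sub_re, Complex.sub_im, Complex.add_re, Complex.add_im, Complex.conj_re, Complex.conj_im]
        nlinarith [hGre z hz, hGre 0 h0, mul_pos (hGre z hz) (hGre 0 h0)]
      exact lt_of_pow_lt_pow_left₀ 2 (norm_nonneg _) h1
    have h2 : ‖deriv φ 0‖ ≤ 1 := by
      have := Complex.norm_deriv_le_div_of_mapsTo_ball hφd (hmaps.mono_right ball_subset_closedBall) one_pos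
      simpa using this
    have hgd : HasDerivAt g (deriv g 0) 0 :=
      (hg.differentiableAt (isOpen_ball.mem_nhds h0)).hasDerivAt
    have hGd0 : HasDerivAt G (deriv g 0) 0 := by simpa [hG] using hgd.add_const (ε : ℂ)
    have h3 : HasDerivAt φ (deriv g 0 / (G 0 + w)) 0 := by
      have := (hGd0.sub_const (G 0)).div (hGd0.add_const w) (hden 0 h0)
      refine this.congr_deriv ?_
      have hd := hden 0 h0
      field_simp
      ring
    rw [h3.deriv, norm_div] at h2
    have h4 : ‖G 0 + w‖ = 2 * ((g 0).re + ε) := by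
      have : G 0 + w = ((2 * ((g 0).re + ε) : ℝ) : ℂ) := by
        apply Complex.ext
        · simp [hw, hG]; ring
        · simp [hw, hG]
      rw [this, Complex.norm_real, Real.norm_of_nonneg]
      have := hre 0 h0
      positivity
    rw [h4] at h2
    have h5 : 0 < 2 * ((g 0).re + ε) := by
      have := hre 0 h0
      positivity
    rwa [div_le_one h5] at h2
  refine le_of_forall_pos_le_add (fun ε hε => ?_)
  have := key (ε / 2) (by positivity)
  linarith

variable {H : Type*} [NormedAddCommGroup H] [InnerProductSpace ℂ H] [CompleteSpace H]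

/-- numerical radius at most `w` implies norm at most `2 w`. -/
theorem norm_le_of_numRadius (Y : H →L[ℂ] H) (w : ℝ) (hw : 0 ≤ w)
    (h : ∀ x, ‖inner ℂ x (Y x)‖ ≤ w * ‖x‖ ^ 2) : ‖Y‖ ≤ 2 * w := by
  refine ContinuousLinearMap.opNorm_le_bound _ (by positivity) (fun x => ?_)
  -- polarisation
  have pol : ∀ u v : H, ‖inner ℂ u (Y v)‖ ≤ w * (‖u‖ ^ 2 + ‖v‖ ^ 2) := by
    intro u v
    have e : (4 : ℂ) * inner ℂ u (Y v) = inner ℂ (u + v) (Y (u + v)) - inner ℂ (u - v) (Y (u - v))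
        + Complex.I * inner ℂ (Complex.I • u + v) (Y (Complex.I • u + v))
        - Complex.I * inner ℂ (Complex.I • u - v) (Y (Complex.I • u - v)) := by
      simp only [map_add, map_sub, map_smul, inner_add_left, inner_add_right, inner_sub_left, inner_sub_right,
        inner_smul_left, inner_smul_right, Complex.conj_I]
      have hI : Complex.I ^ 2 = -1 := Complex.I_sq
      linear_combination (2 * inner ℂ u (Y v) - 2 * inner ℂ v (Y u)) * hI
    have par1 : ‖u + v‖ ^ 2 + ‖u - v‖ ^ 2 = 2 * (‖u‖ ^ 2 + ‖v‖ ^ 2) := by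
      have := parallelogram_law_with_norm ℂ u v
      nlinarith
    have par2 : ‖Complex.I • u + v‖ ^ 2 + ‖Complex.I • u - v‖ ^ 2 = 2 * (‖u‖ ^ 2 + ‖v‖ ^ 2) := by
      have := parallelogram_law_with_norm ℂ (Complex.I • u) v
      rw [norm_smul, Complex.norm_I, one_mul] at this
      nlinarith
    have n4 : 4 * ‖inner ℂ u (Y v)‖ ≤ w * ‖u + v‖ ^ 2 + w * ‖u - v‖ ^ 2 + w * ‖Complex.I • u + v‖ ^ 2
        + w * ‖Complex.I • u - v‖ ^ 2 := by
      calc 4 * ‖inner ℂ u (Y v)‖ = ‖(4 : ℂ) * inner ℂ u (Y v)‖ := by rw [norm_mul]; norm_num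
        _ = _ := by rw [e]
        _ ≤ ‖inner ℂ (u + v) (Y (u + v))‖ + ‖inner ℂ (u - v) (Y (u - v))‖
            + ‖Complex.I * inner ℂ (Complex.I • u + v) (Y (Complex.I • u + v))‖
            + ‖Complex.I * inner ℂ (Complex.I • u - v) (Y (Complex.I • u - v))‖ := by
          refine (norm_sub_le _ _).trans (add_le_add_left ?_ _ |>.trans_eq rfl)
          refine (norm_add_le _ _).trans (add_le_add_left (norm_sub_le _ _) _)
        _ ≤ _ := by
          rw [norm_mul, norm_mul, Complex.norm_I, one_mul, one_mul]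
          gcongr <;> exact h _
    nlinarith
  rcases eq_or_ne (Y x) 0 with h0 | h0
  · rw [h0, norm_zero]; positivity
  rcases eq_or_ne x 0 with hx | hx
  · exact absurd (by rw [hx, map_zero]) h0
  -- scale
  have hxn : 0 < ‖x‖ := norm_pos_iff.2 hx
  have hyn : 0 < ‖Y x‖ := norm_pos_iff.2 h0
  set u : H := ((‖x‖ / ‖Y x‖ : ℝ) : ℂ) • Y x with hu
  have hun : ‖u‖ = ‖x‖ := by
    rw [hu, norm_smul, Complex.norm_real, Real.norm_of_nonneg (by positivity)]
    field_simp
  have h1 := pol u x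
  rw [hun, hu, inner_smul_left, Complex.conj_ofReal, norm_mul, Complex.norm_real,
    Real.norm_of_nonneg (by positivity), inner_self_eq_norm_sq_to_K] at h1
  have h2 : ‖((‖Y x‖ : ℂ)) ^ 2‖ = ‖Y x‖ ^ 2 := by
    rw [norm_pow, Complex.norm_real, norm_norm]
  have h3 : ‖x‖ * ‖Y x‖ ≤ w * (‖x‖ ^ 2 + ‖x‖ ^ 2) := by
    refine le_trans (le_of_eq ?_) h1
    rw [show ((RCLike.ofReal ‖Y x‖ : ℂ)) = ((‖Y x‖ : ℝ) : ℂ) from rfl, h2]
    field_simp
  have h4 : ‖x‖ * ‖Y x‖ ≤ ‖x‖ * (2 * w * ‖x‖) := by nlinarith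
  exact le_of_mul_le_mul_left h4 hxn

/-- (P1), abstract: if `1 - λ Y` is invertible for `|λ| < 1` and `Re (1 - λ Y)⁻¹ ≥ -c`, then `‖Y‖ ≤ 4 (1 + c)`. -/
theorem p1_abstract (Y : H →L[ℂ] H) (c : ℝ) (hc : 0 ≤ c)
    (h : ∀ l : ℂ, ‖l‖ < 1 → IsUnit (1 - l • Y) ∧
      ∀ y, -(c * ‖y‖ ^ 2) ≤ (inner ℂ y (Ring.inverse (1 - l • Y) y)).re) : ‖Y‖ ≤ 4 * (1 + c) := by
  have hn : ∀ x, ‖inner ℂ x (Y x)‖ ≤ (2 * (1 + c)) * ‖x‖ ^ 2 := by
    intro x
    set g : ℂ → ℂ := fun l => inner ℂ x (Ring.inverse (1 - l • Y) x) + (c * ‖x‖ ^ 2 : ℝ) with hg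
    have hR : ∀ l : ℂ, ‖l‖ < 1 → DifferentiableAt ℂ (fun l : ℂ => Ring.inverse (1 - l • Y)) l := by
      intro l hl
      obtain ⟨u, hu⟩ := (h l hl).1
      have h1 : DifferentiableAt ℂ (Ring.inverse : (H →L[ℂ] H) → _) (1 - l • Y) := by
        rw [← hu]; exact differentiableAt_inverse (𝕜 := ℂ) (R := H →L[ℂ] H) u.isUnit
      have h2 : DifferentiableAt ℂ (fun l : ℂ => (1 - l • Y : H →L[ℂ] H)) l := by fun_prop
      exact DifferentiableAt.comp l h1 h2
    have hgd : DifferentiableOn ℂ g (ball 0 1) := by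
      intro l hl
      have hl' : ‖l‖ < 1 := by simpa using hl
      have h3 : DifferentiableAt ℂ (fun l : ℂ => (Ring.inverse (1 - l • Y)) x) l :=
        (hR l hl').clm_apply (differentiableAt_const x)
      have h4 : DifferentiableAt ℂ (fun l : ℂ => inner ℂ x ((Ring.inverse (1 - l • Y)) x)) l :=
        (innerSL ℂ x).differentiableAt.comp l h3
      exact (h4.add_const _).differentiableWithinAt
    have hgre : ∀ z ∈ ball (0 : ℂ) 1, 0 ≤ (g z).re := by
      intro z hz
      have hz' : ‖z‖ < 1 := by simpa using hz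
      have := (h z hz').2 x
      simp only [hg, Complex.add_re, Complex.ofReal_re]
      linarith
    have h5 := norm_deriv_le_of_re_nonneg hgd hgre
    have hd0 : HasDerivAt (fun l : ℂ => Ring.inverse (1 - l • Y)) Y 0 := by
      have h6 : HasDerivAt (fun l : ℂ => (1 - l • Y : H →L[ℂ] H)) (-Y) 0 := by
        have := ((hasDerivAt_id (0 : ℂ)).smul_const Y).const_sub (1 : H →L[ℂ] H)
        simpa using this
      have h7 := hasFDerivAt_ringInverse (𝕜 := ℂ) (R := H →L[ℂ] H) 1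
      have e0 : ((1 : (H →L[ℂ] H)ˣ) : H →L[ℂ] H) = 1 - (0 : ℂ) • Y := by simp
      rw [e0] at h7
      have h8 := h7
      have h9 := h8.comp_hasDerivAt (0 : ℂ) h6
      refine h9.congr_deriv ?_
      simp
    have hd1 : HasDerivAt g (inner ℂ x (Y x)) 0 := by
      have h10 : HasDerivAt (fun l : ℂ => (Ring.inverse (1 - l • Y)) x) (Y x) 0 := by
        have := hd0.clm_apply (hasDerivAt_const (0 : ℂ) x)
        simpa using this
      have h11 : HasDerivAt (fun l : ℂ => inner ℂ x ((Ring.inverse (1 - l • Y)) x)) (inner ℂ x (Y x)) 0 :=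
        (innerSL ℂ x).hasFDerivAt.comp_hasDerivAt (0 : ℂ) h10
      exact h11.add_const _
    rw [hd1.deriv] at h5
    have h12 : (g 0).re = (1 + c) * ‖x‖ ^ 2 := by
      simp only [hg, zero_smul, sub_zero, Ring.inverse_one, one_apply_eq_self,
        inner_self_eq_norm_sq_to_K, Complex.add_re, Complex.ofReal_re]
      rw [show ((RCLike.ofReal ‖x‖ : ℂ)) = ((‖x‖ : ℝ) : ℂ) from rfl, ← Complex.ofReal_pow, Complex.ofReal_re]
      ring
    rw [h12] at h5
    linarith
  have := norm_le_of_numRadius Y (2 * (1 + c)) (by positivity) hn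
  linarith

end Pool.Agent.MP_c3d375_an.Neg
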