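import Pool.Agent.Lib.MP_c3d375_an.Neg.Iface
import Pool.Agent.Lib.MP_c3d375_an.Neg.H85.P1

/-! Row P1 of c3_modules (helper85). -/

set_option autoImplicit false

open Complex Metric Set Filter Topology ComplexConjugate Pool.Agent.MP_c3d375_an.Neg

namespace C3N.H85

/-- evaluation at a point of the disc -/
noncomputable def ev {r : ℝ} (z : ℂ) (hz : z ∈ ball (0 : ℂ) r) : Hol r →ₐ[ℂ] ℂ :=
  (Pi.evalAlgHom ℂ (fun _ : ball (0 : ℂ) r => ℂ) ⟨z, hz⟩).comp (Hol r).val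

theorem ev_eq {r : ℝ} (φ : Hol r) {z : ℂ} (hz : z ∈ ball (0 : ℂ) r) : ev z hz φ = fn φ z := by
  rw [fn_apply _ hz]; rfl

/-- the partial sums of `(1+λψ)/(1-λψ)` -/
noncomputable def hN {r : ℝ} (ψ : Hol r) (l : ℂ) (N : ℕ) : Hol r :=
  1 + (2 : ℂ) • ∑ n ∈ Finset.range N, (l • ψ) ^ (n + 1)

theorem fn_hN {r : ℝ} (ψ : Hol r) (l : ℂ) (N : ℕ) {z : ℂ} (hz : z ∈ ball (0 : ℂ) r) :
    fn (hN ψ l N) z = 1 + 2 * ∑ n ∈ Finset.range N, (l * fn ψ z) ^ (n + 1) := by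
  rw [← ev_eq _ hz, hN]
  simp only [map_add, map_one, map_smul, map_sum, map_pow, ev_eq, smul_eq_mul]

theorem geom_id (w : ℂ) (N : ℕ) (hw : 1 - w ≠ 0) :
    1 + 2 * ∑ n ∈ Finset.range N, w ^ (n + 1) = (1 + w) / (1 - w) - 2 * w ^ (N + 1) / (1 - w) := by
  have h1 : (∑ n ∈ Finset.range N, w ^ (n + 1)) * (1 - w) = w - w ^ (N + 1) := by
    induction N with
    | zero => simp
    | succ N ih => rw [Finset.sum_range_succ, add_mul, ih]; ring
  field_simp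
  linear_combination 2 * h1

theorem re_hN {l w : ℂ} (hl : ‖l‖ < 1) (hw : ‖w‖ ≤ 1) (N : ℕ) :
    0 ≤ (1 + 2 * ∑ n ∈ Finset.range N, (l * w) ^ (n + 1)).re + 2 * ‖l‖ ^ (N + 1) / (1 - ‖l‖) := by
  set u := l * w with hu
  have hul : ‖u‖ ≤ ‖l‖ := by rw [hu, norm_mul]; exact mul_le_of_le_one_right (norm_nonneg _) hw
  have hu1 : ‖u‖ < 1 := lt_of_le_of_lt hul hl
  have hne : 1 - u ≠ 0 := by
    intro h
    have : u = 1 := by linear_combination -h
    rw [this, norm_one] at hu1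
    exact lt_irrefl _ hu1
  have hpos : 0 < 1 - ‖l‖ := by linarith
  have hd : 1 - ‖l‖ ≤ ‖1 - u‖ := by
    have := norm_sub_norm_le (1 : ℂ) u
    rw [norm_one] at this
    linarith
  rw [geom_id u N hne]
  have h1 : 0 ≤ ((1 + u) / (1 - u)).re := by
    rw [Complex.div_re]
    have h2 : (1 + u).re * (1 - u).re + (1 + u).im * (1 - u).im = 1 - ‖u‖ ^ 2 := by
      rw [Complex.sq_norm, Complex.normSq_apply]; simp; ring
    have h3 : 0 ≤ 1 - ‖u‖ ^ 2 := by nlinarith [norm_nonneg u]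
    rw [← add_div, h2]
    exact div_nonneg h3 (Complex.normSq_nonneg _)
  have h4 : ‖2 * u ^ (N + 1) / (1 - u)‖ ≤ 2 * ‖l‖ ^ (N + 1) / (1 - ‖l‖) := by
    rw [norm_div, norm_mul, norm_pow]
    have : ‖(2 : ℂ)‖ = 2 := by norm_num
    rw [this]
    gcongr
  have h5 := (abs_le.1 ((Complex.abs_re_le_norm (2 * u ^ (N + 1) / (1 - u))).trans h4)).2
  rw [Complex.sub_re]
  linarith

theorem a_lt_r {a r : ℝ} (_ : 1 / 2 ≤ a) (_ha1 : a < 1) (_hr : 1 < r) : closedBall (a : ℂ) (1 - a) ⊆ closedBall 0 1 := by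
  intro z hz
  rw [mem_closedBall, dist_eq_norm] at hz
  rw [mem_closedBall_zero_iff]
  have : ‖(a : ℂ)‖ = a := by rw [Complex.norm_real, Real.norm_of_nonneg (by linarith)]
  calc ‖z‖ = ‖(z - a) + a‖ := by ring_nf
    _ ≤ ‖z - a‖ + ‖(a : ℂ)‖ := norm_add_le _ _
    _ ≤ (1 - a) + a := by rw [this]; linarith
    _ = 1 := by ring

/-- bound of the derivative at `a` -/
theorem deriv_hN_le {a r : ℝ} (ha : 1 / 2 ≤ a) (ha1 : a < 1) (hr : 1 < r) (ψ : Hol r)
    (hψ : ∀ z ∈ closedBall (0 : ℂ) 1, ‖fn ψ z‖ ≤ 1) (hψ0 : fn ψ 0 = 0) {l : ℂ} (hl : ‖l‖ < 1) (N : ℕ) :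
    ‖deriv (fn (hN ψ l N)) a‖ ≤ 2 / (1 - a) ^ 3 := by
  have hsub : closedBall (0 : ℂ) 1 ⊆ ball 0 r := closedBall_subset_ball hr
  have hna : ‖(a : ℂ)‖ = a := by rw [Complex.norm_real, Real.norm_of_nonneg (by linarith)]
  have haball : (a : ℂ) ∈ ball (0 : ℂ) r := by rw [mem_ball_zero_iff, hna]; linarith
  have hd : HasDerivAt (fn ψ) (deriv (fn ψ) a) a :=
    ((fn_differentiableOn ψ).differentiableAt (isOpen_ball.mem_nhds haball)).hasDerivAt
  -- the function near `a`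
  have hev : fn (hN ψ l N) =ᶠ[𝓝 (a : ℂ)] fun z => 1 + 2 * ∑ n ∈ Finset.range N, (l * fn ψ z) ^ (n + 1) := by
    filter_upwards [isOpen_ball.mem_nhds haball] with z hz
    exact fn_hN ψ l N hz
  have hder : HasDerivAt (fn (hN ψ l N))
      (2 * ∑ n ∈ Finset.range N, ((n + 1 : ℕ) : ℂ) * (l * fn ψ a) ^ n * (l * deriv (fn ψ) a)) a := by
    refine HasDerivAt.congr_of_eventuallyEq ?_ hev
    refine (HasDerivAt.const_mul 2 (HasDerivAt.fun_sum (fun n _ => ?_))).const_add 1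
    have := (hd.const_mul l).fun_pow (n + 1)
    simpa using this
  rw [hder.deriv, norm_mul]
  have h2 : ‖(2 : ℂ)‖ = 2 := by norm_num
  -- Cauchy estimate
  have hc : ‖deriv (fn ψ) a‖ ≤ 1 / (1 - a) := by
    refine Complex.norm_deriv_le_of_forall_mem_sphere_norm_le (by linarith) ?_ (fun z hz => ?_)
    · have h3 : DifferentiableOn ℂ (fn ψ) (closedBall (a : ℂ) (1 - a)) :=
        (fn_differentiableOn ψ).mono ((a_lt_r ha ha1 hr).trans hsub)
      refine DifferentiableOn.diffContOnCl ?_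
      rw [closure_ball _ (by linarith)]; exact h3
    · exact hψ z (a_lt_r ha ha1 hr (sphere_subset_closedBall hz))
  -- Schwarz
  have hs : ‖fn ψ a‖ ≤ a := by
    have hm : MapsTo (fn ψ) (ball 0 1) (closedBall 0 1) := fun z hz => by
      rw [mem_closedBall_zero_iff]; exact hψ z (ball_subset_closedBall hz)
    have := Complex.norm_le_norm_of_mapsTo_ball ((fn_differentiableOn ψ).mono (ball_subset_closedBall.trans hsub)) hm hψ0
      (z := (a : ℂ)) (by rw [hna]; exact ha1)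
    rwa [hna] at this
  have hterm : ∀ n ∈ Finset.range N, ‖((n + 1 : ℕ) : ℂ) * (l * fn ψ a) ^ n * (l * deriv (fn ψ) a)‖
      ≤ (((n : ℝ) + 1) * a ^ n) * (1 / (1 - a)) := by
    intro n _
    rw [norm_mul, norm_mul, norm_pow, norm_mul, norm_mul, Complex.norm_natCast]
    push_cast
    have e1 : ‖l‖ * ‖fn ψ a‖ ≤ a := by
      calc ‖l‖ * ‖fn ψ a‖ ≤ 1 * a := mul_le_mul hl.le hs (norm_nonneg _) zero_le_one
        _ = a := one_mul a
    have e2 : ‖l‖ * ‖deriv (fn ψ) a‖ ≤ 1 / (1 - a) := by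
      calc ‖l‖ * ‖deriv (fn ψ) a‖ ≤ 1 * (1 / (1 - a)) := mul_le_mul hl.le hc (norm_nonneg _) zero_le_one
        _ = _ := one_mul _
    have : 0 ≤ ‖l‖ * ‖fn ψ a‖ := by positivity
    gcongr
  have hgeo : HasSum (fun n : ℕ => ((n : ℝ) + 1) * a ^ n) (1 / (1 - a) ^ 2) := by
    have ha' : ‖a‖ < 1 := by rw [Real.norm_of_nonneg (by linarith)]; exact ha1
    have g1 := hasSum_coe_mul_geometric_of_norm_lt_one ha'
    have g2 := hasSum_geometric_of_norm_lt_one ha'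
    have g3 := g1.add g2
    have e : a / (1 - a) ^ 2 + (1 - a)⁻¹ = 1 / (1 - a) ^ 2 := by
      have : (1 - a) ≠ 0 := by linarith
      field_simp; ring
    rw [e] at g3
    exact g3.congr_fun (fun n => by ring) |> fun h => h
  have hsum : ∑ n ∈ Finset.range N, ((n : ℝ) + 1) * a ^ n ≤ 1 / (1 - a) ^ 2 :=
    sum_le_hasSum _ (fun n _ => by
      have : 0 ≤ a := by linarith
      positivity) hgeo
  have hpos : 0 < 1 - a := by linarith
  calc ‖(2 : ℂ)‖ * ‖∑ n ∈ Finset.range N, ((n + 1 : ℕ) : ℂ) * (l * fn ψ a) ^ n * (l * deriv (fn ψ) a)‖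
      ≤ 2 * ∑ n ∈ Finset.range N, (((n : ℝ) + 1) * a ^ n) * (1 / (1 - a)) := by
        rw [h2]; gcongr; exact (norm_sum_le _ _).trans (Finset.sum_le_sum hterm)
    _ = 2 * ((∑ n ∈ Finset.range N, ((n : ℝ) + 1) * a ^ n) * (1 / (1 - a))) := by rw [Finset.sum_mul]
    _ ≤ 2 * ((1 / (1 - a) ^ 2) * (1 / (1 - a))) := by gcongr
    _ = 2 / (1 - a) ^ 3 := by field_simp

/-- summability of the powers of a power bounded operator times `l` -/
theorem inverse_of_powerBounded {H : Type*} [NormedAddCommGroup H] [InnerProductSpace ℂ H] [CompleteSpace H]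
    (X : H →L[ℂ] H) (C : ℝ) (hX : ∀ n : ℕ, ‖X ^ n‖ ≤ C) {l : ℂ} (hl : ‖l‖ < 1) :
    IsUnit (1 - l • X) ∧ Tendsto (fun N => ∑ n ∈ Finset.range N, (l • X) ^ n) atTop
      (𝓝 (Ring.inverse (1 - l • X))) := by
  have hb : ∀ n, ‖(l • X) ^ n‖ ≤ C * ‖l‖ ^ n := fun n => by
    rw [smul_pow, norm_smul, norm_pow, mul_comm]
    gcongr
    exact hX n
  have hsum : Summable (fun n => (l • X) ^ n) :=
    Summable.of_norm_bounded ((summable_geometric_of_lt_one (norm_nonneg l) hl).mul_left C) hb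
  set R := ∑' n, (l • X) ^ n with hR
  have ht : Tendsto (fun N => ∑ n ∈ Finset.range N, (l • X) ^ n) atTop (𝓝 R) := hsum.hasSum.tendsto_sum_nat
  have h0 : Tendsto (fun N => (l • X) ^ N) atTop (𝓝 0) := hsum.tendsto_atTop_zero
  have e1 : (1 - l • X) * R = 1 := by
    have t1 : Tendsto (fun N => (1 - l • X) * ∑ n ∈ Finset.range N, (l • X) ^ n) atTop (𝓝 ((1 - l • X) * R)) :=
      ht.const_mul _
    have t2 : Tendsto (fun N => (1 - l • X) * ∑ n ∈ Finset.range N, (l • X) ^ n) atTop (𝓝 (1 - 0)) := by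
      simp_rw [mul_neg_geom_sum]
      exact tendsto_const_nhds.sub h0
    rw [sub_zero] at t2
    exact tendsto_nhds_unique t1 t2
  have e2 : R * (1 - l • X) = 1 := by
    have t1 : Tendsto (fun N => (∑ n ∈ Finset.range N, (l • X) ^ n) * (1 - l • X)) atTop (𝓝 (R * (1 - l • X))) :=
      ht.mul_const _
    have t2 : Tendsto (fun N => (∑ n ∈ Finset.range N, (l • X) ^ n) * (1 - l • X)) atTop (𝓝 (1 - 0)) := by
      simp_rw [geom_sum_mul_neg]
      exact tendsto_const_nhds.sub h0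
    rw [sub_zero] at t2
    exact tendsto_nhds_unique t1 t2
  have hu : IsUnit (1 - l • X) := ⟨⟨1 - l • X, R, e1, e2⟩, rfl⟩
  refine ⟨hu, ?_⟩
  have : Ring.inverse (1 - l • X) = R := by
    have := Ring.inverse_unit ⟨1 - l • X, R, e1, e2⟩
    exact this
  rw [this]; exact ht

/-- the main estimate -/
theorem main_est {a e r : ℝ} (ha : 1 / 2 ≤ a) (ha1 : a < 1) (he : 0 < e) (hr : 1 < r)
    {H : Type} [NormedAddCommGroup H] [InnerProductSpace ℂ H] [CompleteSpace H] (S : Sys a e r H)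
    (ψ : Hol r) (hψ : ∀ z ∈ closedBall (0 : ℂ) 1, ‖fn ψ z‖ ≤ 1) (hψ0 : fn ψ 0 = 0) :
    ‖S.Φ ψ‖ ≤ 4 * (1 + (Ca a * e ^ 2 + e * (2 / (1 - a) ^ 3) * (4 / (1 - a))) / 2) := by
  have hpos : 0 < 1 - a := by linarith
  have hsub : closedBall (0 : ℂ) 1 ⊆ ball 0 r := closedBall_subset_ball hr
  have h0r : (0 : ℂ) ∈ ball (0 : ℂ) r := by simp; linarith
  have hCa : 0 < Ca a := by unfold Ca; positivity
  obtain ⟨C, hC⟩ := S.bdd
  set X := S.Φ ψ with hX
  have hpow : ∀ n : ℕ, ‖X ^ n‖ ≤ C := by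
    intro n
    have := hC (ψ ^ n) 1 (fun z hz => by
      rw [fn_pow _ _ (hsub hz), norm_pow]
      exact pow_le_one₀ (norm_nonneg _) (hψ z hz))
    rwa [mul_one, map_pow] at this
  set c : ℝ := (Ca a * e ^ 2 + e * (2 / (1 - a) ^ 3) * (4 / (1 - a))) / 2 with hc
  have hc0 : 0 ≤ c := by rw [hc]; positivity
  refine p1_abstract X c hc0 (fun l hl => ?_)
  obtain ⟨hu, ht⟩ := inverse_of_powerBounded X C hpow hl
  refine ⟨hu, fun y => ?_⟩
  set R := Ring.inverse (1 - l • X) with hR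
  -- the inequality for each `N`
  set ε : ℕ → ℝ := fun N => 2 * ‖l‖ ^ (N + 1) / (1 - ‖l‖) with hε
  have hl1 : 0 < 1 - ‖l‖ := by linarith
  have hε0 : ∀ N, 0 ≤ ε N := fun N => by simp only [hε]; positivity
  have hεt : Tendsto ε atTop (𝓝 0) := by
    have := (((tendsto_pow_atTop_nhds_zero_of_lt_one (norm_nonneg l) hl).comp (tendsto_add_atTop_nat 1)).const_mul 2).div_const (1 - ‖l‖)
    simpa using this
  have hineq : ∀ N, 0 ≤ (inner ℂ y (S.Φ (hN ψ l N) y)).re + ε N * ‖y‖ ^ 2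
      + (1 + ε N) * (1 + Ca a * e ^ 2) * ‖y‖ ^ 2 + e * (2 / (1 - a) ^ 3) * (4 / (1 - a)) * ‖y‖ ^ 2 := by
    intro N
    set g : Hol r := hN ψ l N + algebraMap ℂ (Hol r) (ε N : ℂ) with hg
    have fng : ∀ z ∈ ball (0 : ℂ) r, fn g z = fn (hN ψ l N) z + (ε N : ℂ) := fun z hz => by
      rw [hg, fn_add, fn_algebraMap _ hz]
    have hre : ∀ z ∈ closedBall (0 : ℂ) 1, 0 ≤ (fn g z).re := by
      intro z hz
      rw [fng z (hsub hz), fn_hN ψ l N (hsub hz), Complex.add_re, Complex.ofReal_re]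
      exact re_hN hl (hψ z hz) N
    have key := S.pos g hre y
    rw [cform] at key
    have g0 : (fn g 0).re = 1 + ε N := by
      rw [fng 0 h0r, fn_hN ψ l N h0r, hψ0]
      simp
    have gd : deriv (fn g) a = deriv (fn (hN ψ l N)) a := by
      have haball : (a : ℂ) ∈ ball (0 : ℂ) r := by
        rw [mem_ball_zero_iff, Complex.norm_real, Real.norm_of_nonneg (by linarith)]; linarith
      have : fn g =ᶠ[𝓝 (a : ℂ)] fun z => fn (hN ψ l N) z + (ε N : ℂ) := by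
        filter_upwards [isOpen_ball.mem_nhds haball] with z hz
        exact fng z hz
      rw [this.deriv_eq, deriv_add_const]
    have gΦ : (inner ℂ y (S.Φ g y)).re = (inner ℂ y (S.Φ (hN ψ l N) y)).re + ε N * ‖y‖ ^ 2 := by
      rw [hg, map_add, add_apply, inner_add_right, Complex.add_re, AlgHom.commutes,
        Algebra.algebraMap_eq_smul_one, smul_apply, one_apply_eq_self, inner_smul_right,
        inner_self_eq_norm_sq_to_K]
      congr 1
      rw [show ((RCLike.ofReal ‖y‖ : ℂ)) = ((‖y‖ : ℝ) : ℂ) from rfl, ← Complex.ofReal_pow, ← Complex.ofReal_mul,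
        Complex.ofReal_re]
    rw [g0, gd, gΦ] at key
    have hlast : ((a : ℂ) * e * conj (deriv (fn (hN ψ l N)) a) * inner ℂ y (S.Φ (Bf a r) y)).re
        ≤ e * (2 / (1 - a) ^ 3) * (4 / (1 - a)) * ‖y‖ ^ 2 := by
      refine (Complex.re_le_norm _).trans ?_
      rw [norm_mul, norm_mul, norm_mul, Complex.norm_conj, Complex.norm_real, Complex.norm_real,
        Real.norm_of_nonneg (by linarith : (0:ℝ) ≤ a), Real.norm_of_nonneg he.le]
      have b1 := deriv_hN_le ha ha1 hr ψ hψ hψ0 hl N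
      have b2 : ‖inner ℂ y (S.Φ (Bf a r) y)‖ ≤ 4 / (1 - a) * ‖y‖ ^ 2 := by
        calc ‖inner ℂ y (S.Φ (Bf a r) y)‖ ≤ ‖y‖ * ‖S.Φ (Bf a r) y‖ := norm_inner_le_norm _ _
          _ ≤ ‖y‖ * (4 / (1 - a) * ‖y‖) := by gcongr; exact (S.Φ (Bf a r)).le_of_opNorm_le S.nB y
          _ = _ := by ring
      calc a * e * ‖deriv (fn (hN ψ l N)) a‖ * ‖inner ℂ y (S.Φ (Bf a r) y)‖
          ≤ 1 * e * (2 / (1 - a) ^ 3) * (4 / (1 - a) * ‖y‖ ^ 2) := by gcongr
        _ = _ := by ring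
    linarith
  -- limit
  have hΦ : ∀ N, S.Φ (hN ψ l N) = 2 * (∑ n ∈ Finset.range (N + 1), (l • X) ^ n) - 1 := by
    intro N
    rw [hN, map_add, map_one, map_smul, map_sum, Finset.sum_range_succ']
    simp only [map_pow, map_smul, pow_zero, ← hX]
    rw [mul_add, two_smul, two_mul]
    noncomm_ring
  have hΦt : Tendsto (fun N => S.Φ (hN ψ l N)) atTop (𝓝 (2 * R - 1)) := by
    simp_rw [hΦ]
    exact ((ht.comp (tendsto_add_atTop_nat 1)).const_mul 2).sub_const 1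
  have hin : Tendsto (fun N => (inner ℂ y (S.Φ (hN ψ l N) y)).re) atTop (𝓝 ((inner ℂ y ((2 * R - 1) y)).re)) := by
    have h1 : Tendsto (fun N => (S.Φ (hN ψ l N)) y) atTop (𝓝 ((2 * R - 1) y)) :=
      ((ContinuousLinearMap.apply ℂ H y).continuous.tendsto _).comp hΦt
    exact (Complex.continuous_re.tendsto _).comp ((tendsto_const_nhds (x := y)).inner h1)
  have hfin : Tendsto (fun N => (inner ℂ y (S.Φ (hN ψ l N) y)).re + ε N * ‖y‖ ^ 2
      + (1 + ε N) * (1 + Ca a * e ^ 2) * ‖y‖ ^ 2 + e * (2 / (1 - a) ^ 3) * (4 / (1 - a)) * ‖y‖ ^ 2) atTop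
      (𝓝 ((inner ℂ y ((2 * R - 1) y)).re + 0 * ‖y‖ ^ 2
      + (1 + 0) * (1 + Ca a * e ^ 2) * ‖y‖ ^ 2 + e * (2 / (1 - a) ^ 3) * (4 / (1 - a)) * ‖y‖ ^ 2)) :=
    ((hin.add (hεt.mul_const _)).add (((hεt.const_add 1).mul_const _).mul_const _)).add tendsto_const_nhds
  have hge := ge_of_tendsto' hfin hineq
  have hsplit : (inner ℂ y ((2 * R - 1) y)).re = 2 * (inner ℂ y (R y)).re - ‖y‖ ^ 2 := by
    have : (2 * R - 1) y = (2 : ℂ) • R y - y := by
      rw [two_mul, sub_apply, add_apply, one_apply_eq_self, two_smul]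
    rw [this, inner_sub_right, inner_smul_right, Complex.sub_re, inner_self_eq_norm_sq_to_K]
    rw [show ((RCLike.ofReal ‖y‖ : ℂ)) = ((‖y‖ : ℝ) : ℂ) from rfl, ← Complex.ofReal_pow, Complex.ofReal_re]
    simp
  rw [hsplit] at hge
  rw [hc]
  nlinarith [hge]

/-- P1 (Paper 1.3) -/
theorem p1_st : P1Statement := by
  intro a ha ha1
  have hpos : 0 < 1 - a := by linarith
  have hCa : 0 < Ca a := by unfold Ca; positivity
  -- choose `e0`
  set K : ℝ := Ca a + 8 / (1 - a) ^ 4 with hK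
  have hKpos : 0 < K := by positivity
  refine ⟨min 1 (1 / (2 * K)), by positivity, fun e he he0 H _ _ _ r hr _ S φ M hM => ?_⟩
  have he1 : e < 1 := lt_of_lt_of_le he0 (min_le_left _ _)
  have he2 : e < 1 / (2 * K) := lt_of_lt_of_le he0 (min_le_right _ _)
  have hsub : closedBall (0 : ℂ) 1 ⊆ ball 0 r := closedBall_subset_ball hr
  have h0 : (0 : ℂ) ∈ closedBall (0 : ℂ) 1 := by simp
  have hM0 : 0 ≤ M := (norm_nonneg _).trans (hM 0 h0)
  obtain ⟨C, hC⟩ := S.bdd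
  rcases hM0.eq_or_lt with hM1 | hM1
  · have := hC φ M hM
    rw [← hM1, mul_zero] at this
    rw [← hM1, mul_zero]; exact this
  set ψ : Hol r := ((1 / (2 * M) : ℝ) : ℂ) • (φ - algebraMap ℂ (Hol r) (fn φ 0)) with hψd
  have fψ : ∀ z ∈ ball (0 : ℂ) r, fn ψ z = ((1 / (2 * M) : ℝ) : ℂ) * (fn φ z - fn φ 0) := fun z hz => by
    rw [hψd, fn_smul, fn_sub, fn_algebraMap _ hz]
  have hψ : ∀ z ∈ closedBall (0 : ℂ) 1, ‖fn ψ z‖ ≤ 1 := by
    intro z hz
    rw [fψ z (hsub hz), norm_mul, Complex.norm_real, Real.norm_of_nonneg (by positivity)]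
    have h1 : ‖fn φ z - fn φ 0‖ ≤ 2 * M := (norm_sub_le _ _).trans (by linarith [hM z hz, hM 0 h0])
    calc 1 / (2 * M) * ‖fn φ z - fn φ 0‖ ≤ 1 / (2 * M) * (2 * M) := by gcongr
      _ = 1 := by field_simp
  have hψ0 : fn ψ 0 = 0 := by rw [fψ 0 (hsub h0)]; simp
  have hest := main_est ha ha1 he hr S ψ hψ hψ0
  have hψn : ‖S.Φ ψ‖ ≤ 5 := by
    refine hest.trans ?_
    have h1 : Ca a * e ^ 2 + e * (2 / (1 - a) ^ 3) * (4 / (1 - a)) ≤ K * e := by
      have e1 : e * (2 / (1 - a) ^ 3) * (4 / (1 - a)) = 8 / (1 - a) ^ 4 * e := by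
        field_simp; ring
      have e2 : Ca a * e ^ 2 ≤ Ca a * e := by
        have : e ^ 2 ≤ e := by nlinarith
        gcongr
      rw [e1, hK, add_mul]
      linarith
    have h2 : K * e ≤ 1 / 2 := by
      calc K * e ≤ K * (1 / (2 * K)) := by gcongr
        _ = 1 / 2 := by field_simp
    linarith
  have hφ : S.Φ φ = ((2 * M : ℝ) : ℂ) • S.Φ ψ + (fn φ 0) • (1 : H →L[ℂ] H) := by
    have hMne : (M : ℂ) ≠ 0 := by exact_mod_cast hM1.ne'
    rw [hψd, map_smul, map_sub, AlgHom.commutes, Algebra.algebraMap_eq_smul_one, smul_smul]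
    have : ((2 * M : ℝ) : ℂ) * ((1 / (2 * M) : ℝ) : ℂ) = 1 := by
      push_cast; field_simp
    rw [this, one_smul, sub_add_cancel]
  rw [hφ]
  calc ‖((2 * M : ℝ) : ℂ) • S.Φ ψ + (fn φ 0) • (1 : H →L[ℂ] H)‖
      ≤ ‖((2 * M : ℝ) : ℂ) • S.Φ ψ‖ + ‖(fn φ 0) • (1 : H →L[ℂ] H)‖ := norm_add_le _ _
    _ ≤ (2 * M) * 5 + M * 1 := by
      rw [norm_smul, norm_smul, Complex.norm_real, Real.norm_of_nonneg (by positivity)]
      gcongr
      · exact hM 0 h0
      · exact ContinuousLinearMap.norm_id_le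
    _ = 11 * M := by ring

end C3N.H85
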