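import Pool.Agent.Lib.MP_c3d375_an.Neg.H85.Psd

/-! 4.1 (INV) and 4.2 (KK) of Neg/Paper.md along a family of Hilbert spaces (helper85). -/

set_option autoImplicit false

namespace Pool.Agent.MP_c3d375_an.Neg

open Filter Topology

section single
variable {H : Type*} [NormedAddCommGroup H] [InnerProductSpace ℂ H] [CompleteSpace H]


/-- the form `re ⟪x, q (1 + D) x⟫` -/
noncomputable def MM (q D : H →L[ℂ] H) (x : H) : ℝ := (inner ℂ x (q (x + D x))).re

theorem MM_eq (q D : H →L[ℂ] H) (x : H) :
    (inner ℂ x (q x)).re = MM q D x - (inner ℂ (ContinuousLinearMap.adjoint q x) (D x)).re := by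
  rw [MM, map_add, inner_add_right, Complex.add_re, ContinuousLinearMap.adjoint_inner_left]
  ring

/-- the bracket of `X = q + q†` -/
theorem bracket_bound (q D : H →L[ℂ] H) (h : ∀ z, 0 ≤ MM q D z) (w z : H) :
    ‖inner ℂ w (q z) + inner ℂ (q w) z‖
      ≤ 2 * (Real.sqrt (MM q D w) * Real.sqrt (MM q D z)) + ‖D‖ * (‖ContinuousLinearMap.adjoint q w‖ * ‖z‖ + ‖w‖ * ‖ContinuousLinearMap.adjoint q z‖) := by
  set T : H →L[ℂ] H := q * (1 + D) with hT
  have hTx : ∀ x, T x = q (x + D x) := fun x => by simp [hT]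
  have h1 : ∀ x, (inner ℂ x (T x)).re = MM q D x := fun x => by rw [hTx]; rfl
  have h2 := psd_cs T (fun x => by rw [h1]; exact h x) w z
  rw [h1, h1, hTx, hTx] at h2
  have e : inner ℂ w (q z) + inner ℂ (q w) z
      = (inner ℂ w (q (z + D z)) + inner ℂ (q (w + D w)) z) - (inner ℂ (ContinuousLinearMap.adjoint q w) (D z) + inner ℂ (D w) (ContinuousLinearMap.adjoint q z)) := by
    rw [map_add, map_add, inner_add_right, inner_add_left, ContinuousLinearMap.adjoint_inner_left,
      ContinuousLinearMap.adjoint_inner_right]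
    ring
  rw [e]
  refine (norm_sub_le _ _).trans (add_le_add h2 ((norm_add_le _ _).trans ?_))
  have b1 : ‖inner ℂ (ContinuousLinearMap.adjoint q w) (D z)‖ ≤ ‖ContinuousLinearMap.adjoint q w‖ * (‖D‖ * ‖z‖) :=
    (norm_inner_le_norm _ _).trans (by gcongr; exact D.le_opNorm z)
  have b2 : ‖inner ℂ (D w) (ContinuousLinearMap.adjoint q z)‖ ≤ (‖D‖ * ‖w‖) * ‖ContinuousLinearMap.adjoint q z‖ :=
    (norm_inner_le_norm _ _).trans (by gcongr; exact D.le_opNorm w)
  linarith

/-- algebraic hypotheses -/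
structure Alg (q K J j D : H →L[ℂ] H) : Prop where
  Kq : ∀ x, K (q x) = J x
  qK : ∀ x, q (K x) = J x
  jq : ∀ x, j (q x) = K x
  qj : ∀ x, q (j x) = K x
  jJ : ∀ x, j x + J x = x
  N0 : ∀ z, 0 ≤ MM q D z

namespace Alg
variable {q K J j D : H →L[ℂ] H} (h : Alg q K J j D)
include h

theorem adj_Kq (x : H) : ContinuousLinearMap.adjoint q (ContinuousLinearMap.adjoint K x) = ContinuousLinearMap.adjoint J x := by
  refine ext_inner_left ℂ (fun y => ?_)
  rw [ContinuousLinearMap.adjoint_inner_right, ContinuousLinearMap.adjoint_inner_right,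
    ContinuousLinearMap.adjoint_inner_right, h.Kq]

theorem adj_qK (x : H) : ContinuousLinearMap.adjoint K (ContinuousLinearMap.adjoint q x) = ContinuousLinearMap.adjoint J x := by
  refine ext_inner_left ℂ (fun y => ?_)
  rw [ContinuousLinearMap.adjoint_inner_right, ContinuousLinearMap.adjoint_inner_right,
    ContinuousLinearMap.adjoint_inner_right, h.qK]

theorem adj_jq (x : H) : ContinuousLinearMap.adjoint q (ContinuousLinearMap.adjoint j x) = ContinuousLinearMap.adjoint K x := by
  refine ext_inner_left ℂ (fun y => ?_)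
  rw [ContinuousLinearMap.adjoint_inner_right, ContinuousLinearMap.adjoint_inner_right,
    ContinuousLinearMap.adjoint_inner_right, h.jq]

theorem adj_qj (x : H) : ContinuousLinearMap.adjoint j (ContinuousLinearMap.adjoint q x) = ContinuousLinearMap.adjoint K x := by
  refine ext_inner_left ℂ (fun y => ?_)
  rw [ContinuousLinearMap.adjoint_inner_right, ContinuousLinearMap.adjoint_inner_right,
    ContinuousLinearMap.adjoint_inner_right, h.qj]

/-- `K X + X K† = (J + J†) + q (j + j†) q†`, paired with `w`. -/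
theorem main_id (z w : H) :
    (inner ℂ (ContinuousLinearMap.adjoint K w) (q z) + inner ℂ (q (ContinuousLinearMap.adjoint K w)) z) + (inner ℂ w (q (ContinuousLinearMap.adjoint K z)) + inner ℂ (q w) (ContinuousLinearMap.adjoint K z))
      = inner ℂ w (J z + ContinuousLinearMap.adjoint J z) + inner ℂ (ContinuousLinearMap.adjoint q w) (j (ContinuousLinearMap.adjoint q z) + ContinuousLinearMap.adjoint j (ContinuousLinearMap.adjoint q z)) := by
  have e1 : inner ℂ (ContinuousLinearMap.adjoint K w) (q z) = inner ℂ w (J z) := by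
    rw [ContinuousLinearMap.adjoint_inner_left, h.Kq]
  have e2 : inner ℂ (q (ContinuousLinearMap.adjoint K w)) z = inner ℂ (ContinuousLinearMap.adjoint q w) (j (ContinuousLinearMap.adjoint q z)) := by
    rw [← ContinuousLinearMap.adjoint_inner_right, ContinuousLinearMap.adjoint_inner_left,
      ContinuousLinearMap.adjoint_inner_left, h.qj]
  have e3 : inner ℂ w (q (ContinuousLinearMap.adjoint K z)) = inner ℂ (ContinuousLinearMap.adjoint q w) (ContinuousLinearMap.adjoint j (ContinuousLinearMap.adjoint q z)) := by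
    rw [h.adj_qj, ContinuousLinearMap.adjoint_inner_left]
  have e4 : inner ℂ (q w) (ContinuousLinearMap.adjoint K z) = inner ℂ w (ContinuousLinearMap.adjoint J z) := by
    rw [ContinuousLinearMap.adjoint_inner_right, ContinuousLinearMap.adjoint_inner_right, h.Kq]
  rw [e1, e2, e3, e4, inner_add_right, inner_add_right]
  ring

/-- bound of `M (K† x)` -/
theorem MM_adjK_le (x : H) : MM q D (ContinuousLinearMap.adjoint K x) ≤ ‖J‖ * (1 + ‖D‖) * ‖K‖ * ‖x‖ ^ 2 := by
  have e : inner ℂ (ContinuousLinearMap.adjoint K x) (q (ContinuousLinearMap.adjoint K x + D (ContinuousLinearMap.adjoint K x))) = inner ℂ x (J (ContinuousLinearMap.adjoint K x + D (ContinuousLinearMap.adjoint K x))) := by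
    rw [ContinuousLinearMap.adjoint_inner_left, h.Kq]
  have hk : ‖ContinuousLinearMap.adjoint K x‖ ≤ ‖K‖ * ‖x‖ := by
    have := (ContinuousLinearMap.adjoint K).le_opNorm x
    rwa [LinearIsometryEquiv.norm_map] at this
  have h2 : ‖ContinuousLinearMap.adjoint K x + D (ContinuousLinearMap.adjoint K x)‖ ≤ (1 + ‖D‖) * (‖K‖ * ‖x‖) := by
    calc _ ≤ ‖ContinuousLinearMap.adjoint K x‖ + ‖D (ContinuousLinearMap.adjoint K x)‖ := norm_add_le _ _
      _ ≤ ‖ContinuousLinearMap.adjoint K x‖ + ‖D‖ * ‖ContinuousLinearMap.adjoint K x‖ := by gcongr; exact D.le_opNorm _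
      _ = (1 + ‖D‖) * ‖ContinuousLinearMap.adjoint K x‖ := by ring
      _ ≤ _ := by gcongr
  calc MM q D (ContinuousLinearMap.adjoint K x) = (inner ℂ x (J (ContinuousLinearMap.adjoint K x + D (ContinuousLinearMap.adjoint K x)))).re := by rw [MM, e]
    _ ≤ ‖inner ℂ x (J (ContinuousLinearMap.adjoint K x + D (ContinuousLinearMap.adjoint K x)))‖ := Complex.re_le_norm _
    _ ≤ ‖x‖ * ‖J (ContinuousLinearMap.adjoint K x + D (ContinuousLinearMap.adjoint K x))‖ := norm_inner_le_norm _ _
    _ ≤ ‖x‖ * (‖J‖ * ((1 + ‖D‖) * (‖K‖ * ‖x‖))) := by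
      gcongr; exact (J.le_opNorm _).trans (by gcongr)
    _ = _ := by ring

/-- first step of (INV) -/
theorem step1 (z : H) :
    MM q D (ContinuousLinearMap.adjoint K z) ≤ ‖D‖ * (‖ContinuousLinearMap.adjoint q (ContinuousLinearMap.adjoint K z)‖ * ‖ContinuousLinearMap.adjoint K z‖)
      + ‖J z + ContinuousLinearMap.adjoint J z‖ * ‖ContinuousLinearMap.adjoint K z‖ + ‖j (ContinuousLinearMap.adjoint q z) + ContinuousLinearMap.adjoint j (ContinuousLinearMap.adjoint q z)‖ * ‖ContinuousLinearMap.adjoint q (ContinuousLinearMap.adjoint K z)‖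
      + (2 * (Real.sqrt (MM q D (ContinuousLinearMap.adjoint K (ContinuousLinearMap.adjoint K z))) * Real.sqrt (MM q D z))
        + ‖D‖ * (‖ContinuousLinearMap.adjoint q (ContinuousLinearMap.adjoint K (ContinuousLinearMap.adjoint K z))‖ * ‖z‖ + ‖ContinuousLinearMap.adjoint K (ContinuousLinearMap.adjoint K z)‖ * ‖ContinuousLinearMap.adjoint q z‖)) := by
  set w := ContinuousLinearMap.adjoint K z with hw
  have id := h.main_id z w
  have b := bracket_bound q D h.N0 (ContinuousLinearMap.adjoint K w) z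
  have id2 := congrArg Complex.re id
  simp only [Complex.add_re] at id2
  have e1 : (inner ℂ (q w) w).re = (inner ℂ w (q w)).re := re_inner_comm' _ _
  rw [← hw, e1, MM_eq q D w] at id2
  have b1 : -(‖D‖ * (‖ContinuousLinearMap.adjoint q w‖ * ‖w‖)) ≤ -(inner ℂ (ContinuousLinearMap.adjoint q w) (D w)).re := by
    have : (inner ℂ (ContinuousLinearMap.adjoint q w) (D w)).re ≤ ‖D‖ * (‖ContinuousLinearMap.adjoint q w‖ * ‖w‖) :=
      calc _ ≤ ‖inner ℂ (ContinuousLinearMap.adjoint q w) (D w)‖ := Complex.re_le_norm _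
        _ ≤ ‖ContinuousLinearMap.adjoint q w‖ * ‖D w‖ := norm_inner_le_norm _ _
        _ ≤ ‖ContinuousLinearMap.adjoint q w‖ * (‖D‖ * ‖w‖) := by gcongr; exact D.le_opNorm _
        _ = _ := by ring
    linarith
  have b2 : (inner ℂ w (J z + ContinuousLinearMap.adjoint J z)).re ≤ ‖J z + ContinuousLinearMap.adjoint J z‖ * ‖w‖ :=
    calc _ ≤ ‖inner ℂ w (J z + ContinuousLinearMap.adjoint J z)‖ := Complex.re_le_norm _
      _ ≤ ‖w‖ * ‖J z + ContinuousLinearMap.adjoint J z‖ := norm_inner_le_norm _ _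
      _ = _ := by ring
  have b3 : (inner ℂ (ContinuousLinearMap.adjoint q w) (j (ContinuousLinearMap.adjoint q z) + ContinuousLinearMap.adjoint j (ContinuousLinearMap.adjoint q z))).re
      ≤ ‖j (ContinuousLinearMap.adjoint q z) + ContinuousLinearMap.adjoint j (ContinuousLinearMap.adjoint q z)‖ * ‖ContinuousLinearMap.adjoint q w‖ :=
    calc _ ≤ ‖inner ℂ (ContinuousLinearMap.adjoint q w) (j (ContinuousLinearMap.adjoint q z) + ContinuousLinearMap.adjoint j (ContinuousLinearMap.adjoint q z))‖ := Complex.re_le_norm _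
      _ ≤ ‖ContinuousLinearMap.adjoint q w‖ * ‖j (ContinuousLinearMap.adjoint q z) + ContinuousLinearMap.adjoint j (ContinuousLinearMap.adjoint q z)‖ := norm_inner_le_norm _ _
      _ = _ := by ring
  have b4 : -‖inner ℂ (ContinuousLinearMap.adjoint K w) (q z) + inner ℂ (q (ContinuousLinearMap.adjoint K w)) z‖
      ≤ (inner ℂ (ContinuousLinearMap.adjoint K w) (q z)).re + (inner ℂ (q (ContinuousLinearMap.adjoint K w)) z).re := by
    rw [← Complex.add_re]
    exact (abs_le.1 (Complex.abs_re_le_norm _)).1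
  have n1 := norm_nonneg (J z + ContinuousLinearMap.adjoint J z)
  have n2 := norm_nonneg w
  have n3 := norm_nonneg (j (ContinuousLinearMap.adjoint q z) + ContinuousLinearMap.adjoint j (ContinuousLinearMap.adjoint q z))
  have n4 := norm_nonneg (ContinuousLinearMap.adjoint q w)
  have n5 := norm_nonneg D
  nlinarith [mul_nonneg n1 n2, mul_nonneg n3 n4, mul_nonneg n5 (mul_nonneg n4 n2), norm_nonneg (inner ℂ (ContinuousLinearMap.adjoint K w) (q z) + inner ℂ (q (ContinuousLinearMap.adjoint K w)) z)]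

/-- second step of (INV) -/
theorem step2 (z : H) :
    (inner ℂ z (J z)).re + (inner ℂ (ContinuousLinearMap.adjoint q z) (j (ContinuousLinearMap.adjoint q z))).re
      ≤ 2 * (Real.sqrt (MM q D (ContinuousLinearMap.adjoint K z)) * Real.sqrt (MM q D z))
        + ‖D‖ * (‖ContinuousLinearMap.adjoint q (ContinuousLinearMap.adjoint K z)‖ * ‖z‖ + ‖ContinuousLinearMap.adjoint K z‖ * ‖ContinuousLinearMap.adjoint q z‖) := by
  have id := congrArg Complex.re (h.main_id z z)
  have b := bracket_bound q D h.N0 (ContinuousLinearMap.adjoint K z) z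
  simp only [Complex.add_re, inner_add_right] at id
  have e1 : (inner ℂ z (ContinuousLinearMap.adjoint J z)).re = (inner ℂ z (J z)).re := by
    rw [ContinuousLinearMap.adjoint_inner_right]; exact re_inner_comm' _ _
  have e2 : (inner ℂ (ContinuousLinearMap.adjoint q z) (ContinuousLinearMap.adjoint j (ContinuousLinearMap.adjoint q z))).re = (inner ℂ (ContinuousLinearMap.adjoint q z) (j (ContinuousLinearMap.adjoint q z))).re := by
    rw [ContinuousLinearMap.adjoint_inner_right]; exact re_inner_comm' _ _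
  have e3 : (inner ℂ z (q (ContinuousLinearMap.adjoint K z))).re = (inner ℂ (q (ContinuousLinearMap.adjoint K z)) z).re := re_inner_comm' _ _
  have e4 : (inner ℂ (q z) (ContinuousLinearMap.adjoint K z)).re = (inner ℂ (ContinuousLinearMap.adjoint K z) (q z)).re := re_inner_comm' _ _
  rw [e1, e2, e3, e4] at id
  have b4 : (inner ℂ (ContinuousLinearMap.adjoint K z) (q z)).re + (inner ℂ (q (ContinuousLinearMap.adjoint K z)) z).re
      ≤ ‖inner ℂ (ContinuousLinearMap.adjoint K z) (q z) + inner ℂ (q (ContinuousLinearMap.adjoint K z)) z‖ := by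
    rw [← Complex.add_re]
    exact Complex.re_le_norm _
  linarith

end Alg

end single

end Pool.Agent.MP_c3d375_an.Neg
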