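import Mathlib

/-! Cauchy-Schwarz for the hermitian part of an accretive operator, contact lemma (helper85). -/

set_option autoImplicit false

namespace Pool.Agent.MP_c3d375_an.Neg

open Filter Topology

section single
variable {H : Type*} [NormedAddCommGroup H] [InnerProductSpace ℂ H]

theorem re_inner_comm' (x y : H) : (inner ℂ x y).re = (inner ℂ y x).re := by
  rw [← inner_conj_symm, Complex.conj_re]

/-- Cauchy-Schwarz for the form `⟪w, T z⟫ + ⟪T w, z⟫` of an accretive operator. -/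
theorem psd_cs (T : H →L[ℂ] H) (h : ∀ z, 0 ≤ (inner ℂ z (T z)).re) (w z : H) :
    ‖inner ℂ w (T z) + inner ℂ (T w) z‖
      ≤ 2 * (Real.sqrt (inner ℂ w (T w)).re * Real.sqrt (inner ℂ z (T z)).re) := by
  let c : PreInnerProductSpace.Core ℂ H :=
    { inner := fun w z => inner ℂ w (T z) + inner ℂ (T w) z
      conj_inner_symm := fun x y => by
        simp only [map_add, inner_conj_symm]; ring
      re_inner_nonneg := fun x => by
        have h1 := h x
        have h2 : (inner ℂ (T x) x).re = (inner ℂ x (T x)).re := re_inner_comm' _ _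
        simp only [RCLike.re_to_complex, Complex.add_re]
        linarith
      add_left := fun x y z => by
        simp only [map_add, inner_add_left]; ring
      smul_left := fun x y r => by
        simp only [map_smul, inner_smul_left]; ring }
  have key := @InnerProductSpace.Core.inner_mul_inner_self_le ℂ H _ _ _ c w z
  have e1 : (@inner ℂ H c.toInner w z) = inner ℂ w (T z) + inner ℂ (T w) z := rfl
  have e2 : (@inner ℂ H c.toInner z w) = inner ℂ z (T w) + inner ℂ (T z) w := rfl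
  have e3 : (@inner ℂ H c.toInner w w) = inner ℂ w (T w) + inner ℂ (T w) w := rfl
  have e4 : (@inner ℂ H c.toInner z z) = inner ℂ z (T z) + inner ℂ (T z) z := rfl
  rw [e1, e2, e3, e4] at key
  have e5 : ‖inner ℂ z (T w) + inner ℂ (T z) w‖ = ‖inner ℂ w (T z) + inner ℂ (T w) z‖ := by
    rw [← Complex.norm_conj]
    simp only [map_add, inner_conj_symm]
    rw [add_comm]
  rw [e5] at key
  simp only [RCLike.re_to_complex, Complex.add_re] at key
  rw [re_inner_comm' (T w) w, re_inner_comm' (T z) z] at key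
  have hw := h w
  have hz := h z
  have hs1 := Real.sq_sqrt hw
  have hs2 := Real.sq_sqrt hz
  have h0 := Real.sqrt_nonneg (inner ℂ w (T w)).re
  have h0' := Real.sqrt_nonneg (inner ℂ z (T z)).re
  refine abs_le_of_sq_le_sq' ?_ (by positivity) |>.2
  calc _ = ‖inner ℂ w (T z) + inner ℂ (T w) z‖ * ‖inner ℂ w (T z) + inner ℂ (T w) z‖ := by ring
    _ ≤ _ := key
    _ = _ := by rw [mul_pow, mul_pow, hs1, hs2]; ring

/-- contact lemma, quantitative. -/
theorem contact_bound [CompleteSpace H] (T : H →L[ℂ] H) (m C : ℝ) (hm : 0 ≤ m) (hC : 0 ≤ C)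
    (h : ∀ x, -(m * ‖x‖ ^ 2) ≤ (inner ℂ x (T x)).re) (hT : ‖T‖ ≤ C) (z : H) :
    ‖T z + ContinuousLinearMap.adjoint T z‖
      ≤ 2 * m * ‖z‖ + 2 * Real.sqrt (C + m) * Real.sqrt ((inner ℂ z (T z)).re + m * ‖z‖ ^ 2) := by
  set A : H →L[ℂ] H := T + (m : ℂ) • 1 with hA
  have hAz : ∀ x, (inner ℂ x (A x)).re = (inner ℂ x (T x)).re + m * ‖x‖ ^ 2 := by
    intro x
    have : inner ℂ x (A x) = inner ℂ x (T x) + ((m * ‖x‖ ^ 2 : ℝ) : ℂ) := by
      rw [hA, add_apply, inner_add_right, smul_apply, inner_smul_right,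
        one_apply_eq_self, inner_self_eq_norm_sq_to_K]
      push_cast
      rfl
    rw [this, Complex.add_re, Complex.ofReal_re]
  have hApos : ∀ x, 0 ≤ (inner ℂ x (A x)).re := fun x => by rw [hAz]; linarith [h x]
  set g : H := A z + ContinuousLinearMap.adjoint A z with hg
  have h1 : ‖g‖ ^ 2 ≤ 2 * (Real.sqrt (inner ℂ g (A g)).re * Real.sqrt (inner ℂ z (A z)).re) := by
    have := psd_cs A hApos g z
    have e : inner ℂ g (A z) + inner ℂ (A g) z = ((‖g‖ ^ 2 : ℝ) : ℂ) := by
      rw [← ContinuousLinearMap.adjoint_inner_right, ← inner_add_right, ← hg, inner_self_eq_norm_sq_to_K]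
      push_cast; rfl
    rw [e, Complex.norm_real, Real.norm_of_nonneg (by positivity)] at this
    exact this
  have h2 : (inner ℂ g (A g)).re ≤ (C + m) * ‖g‖ ^ 2 := by
    rw [hAz]
    have : (inner ℂ g (T g)).re ≤ C * ‖g‖ ^ 2 := by
      calc (inner ℂ g (T g)).re ≤ ‖inner ℂ g (T g)‖ := Complex.re_le_norm _
        _ ≤ ‖g‖ * ‖T g‖ := norm_inner_le_norm _ _
        _ ≤ ‖g‖ * (C * ‖g‖) := by gcongr; exact T.le_of_opNorm_le hT g
        _ = _ := by ring
    linarith
  have h3 : ‖g‖ ^ 2 ≤ 2 * (Real.sqrt (C + m) * ‖g‖ * Real.sqrt (inner ℂ z (A z)).re) := by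
    refine h1.trans ?_
    gcongr
    calc Real.sqrt (inner ℂ g (A g)).re ≤ Real.sqrt ((C + m) * ‖g‖ ^ 2) := Real.sqrt_le_sqrt h2
      _ = _ := by rw [Real.sqrt_mul (by positivity), Real.sqrt_sq (norm_nonneg _)]
  have h4 : ‖g‖ ≤ 2 * Real.sqrt (C + m) * Real.sqrt (inner ℂ z (A z)).re := by
    rcases (norm_nonneg g).eq_or_lt with h0 | h0
    · rw [← h0]; positivity
    · have : ‖g‖ * ‖g‖ ≤ ‖g‖ * (2 * Real.sqrt (C + m) * Real.sqrt (inner ℂ z (A z)).re) := by nlinarith
      exact le_of_mul_le_mul_left this h0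
  have h5 : T z + ContinuousLinearMap.adjoint T z = g - (2 * m : ℂ) • z := by
    rw [hg, hA]
    simp only [map_add, add_apply, smul_apply, one_apply_eq_self,
      map_smulₛₗ, Complex.conj_ofReal, ContinuousLinearMap.adjoint_one]
    rw [two_mul, add_smul]
    abel
  rw [h5]
  calc ‖g - (2 * m : ℂ) • z‖ ≤ ‖g‖ + ‖(2 * m : ℂ) • z‖ := norm_sub_le _ _
    _ = ‖g‖ + 2 * m * ‖z‖ := by
      rw [norm_smul, show (2 * m : ℂ) = ((2 * m : ℝ) : ℂ) by push_cast; rfl, Complex.norm_real,
        Real.norm_of_nonneg (by positivity)]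
    _ ≤ _ := by rw [hAz] at h4; linarith

end single

end Pool.Agent.MP_c3d375_an.Neg
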